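import Mathlib

set_option autoImplicit false

/-!
The algebra: separable elements, degrees, primitive elements.
-/

namespace Pool.Agent.Q205.CP

open Polynomial IntermediateField

variable (F : Type) {K : Type} [Field F] [Field K] [Algebra F K]

/-- `x` is a root of a nonzero polynomial of degree at most `n` -/
def DegLe (n : ℕ) (x : K) : Prop := ∃ p : F[X], p ≠ 0 ∧ p.natDegree ≤ n ∧ aeval x p = 0

variable {F}

theorem DegLe.pow {n m : ℕ} {x : K} (hm : 0 < m) (h : DegLe F n (x ^ m)) : DegLe F (n * m) x := by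
  obtain ⟨p, h0, h1, h2⟩ := h
  refine ⟨expand F m p, (expand_ne_zero hm).2 h0, ?_, ?_⟩
  · rw [natDegree_expand]
    exact Nat.mul_le_mul_right m h1
  · rw [expand_aeval]
    exact h2

theorem DegLe.mono {n m : ℕ} {x : K} (hm : n ≤ m) (h : DegLe F n x) : DegLe F m x := by
  obtain ⟨p, h0, h1, h2⟩ := h
  exact ⟨p, h0, h1.trans hm, h2⟩

theorem DegLe.isIntegral {n : ℕ} {x : K} (h : DegLe F n x) : IsIntegral F x := by
  obtain ⟨p, h0, -, h2⟩ := h
  exact IsAlgebraic.isIntegral ⟨p, h0, h2⟩

theorem degLe_iff {n : ℕ} {x : K} (hx : IsIntegral F x) :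
    DegLe F n x ↔ (minpoly F x).natDegree ≤ n := by
  constructor
  · rintro ⟨p, h0, h1, h2⟩
    exact (natDegree_le_natDegree (minpoly.degree_le_of_ne_zero F x h0 h2)).trans h1
  · intro h
    exact ⟨minpoly F x, minpoly.ne_zero hx, h, minpoly.aeval F x⟩

theorem mem_adjoin_iff {x y : K} (hy : IsIntegral F y) :
    x ∈ Algebra.adjoin F {y} ↔ x ∈ F⟮y⟯ := by
  rw [← adjoin_simple_toSubalgebra_of_isAlgebraic hy.isAlgebraic]
  rfl

theorem DegLe.of_mem {n : ℕ} {x y : K} (h : DegLe F n y) (hx : x ∈ Algebra.adjoin F {y}) :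
    DegLe F n x := by
  have hy := h.isIntegral
  rw [mem_adjoin_iff hy] at hx
  have : FiniteDimensional F F⟮y⟯ := adjoin.finiteDimensional hy
  have h1 : F⟮x⟯ ≤ F⟮y⟯ := adjoin_simple_le_iff.2 hx
  have hxi : IsIntegral F x := by
    have := Algebra.IsIntegral.isIntegral (R := F) (⟨x, hx⟩ : F⟮y⟯)
    exact this.map (F⟮y⟯.val)
  rw [degLe_iff hy] at h
  rw [degLe_iff hxi, ← adjoin.finrank hxi]
  rw [← adjoin.finrank hy] at h
  exact (finrank_le_of_le_right h1).trans h

theorem unbounded_of_rank (h : ∀ n : ℕ, ∃ x : K, (n : Cardinal) < Module.rank F F⟮x⟯) (n : ℕ) :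
    ∃ x : K, ¬ DegLe F n x := by
  obtain ⟨x, hx⟩ := h n
  refine ⟨x, fun hc => ?_⟩
  have hi := hc.isIntegral
  have : FiniteDimensional F F⟮x⟯ := adjoin.finiteDimensional hi
  rw [degLe_iff hi, ← adjoin.finrank hi] at hc
  rw [← Module.finrank_eq_rank] at hx
  have := Nat.cast_lt.1 hx
  omega

/-- primitive elements -/
theorem exists_prim {a : ℕ → K} (j : ℕ) (h : ∀ i ≤ j, IsSeparable F (a i)) :
    ∃ y : K, ∀ i ≤ j, a i ∈ Algebra.adjoin F {y} := by
  set S : Set K := a '' {i | i ≤ j} with hS
  have hfin : S.Finite := (Set.finite_le_nat j).image a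
  have hsep : Algebra.IsSeparable F (adjoin F S) := by
    rw [isSeparable_adjoin_iff_isSeparable]
    rintro x ⟨i, hi, rfl⟩
    exact h i hi
  have hfd : FiniteDimensional F (adjoin F S) := by
    have := hfin.to_subtype
    refine finiteDimensional_adjoin fun x hx => ?_
    obtain ⟨i, hi, rfl⟩ := hx
    exact (h i hi).isIntegral
  obtain ⟨y, hy⟩ := Field.exists_primitive_element F (adjoin F S)
  refine ⟨(y : K), fun i hi => ?_⟩
  have hyi : IsIntegral F (y : K) := by
    have := Algebra.IsIntegral.isIntegral (R := F) y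
    exact this.map ((adjoin F S).val)
  rw [mem_adjoin_iff hyi]
  have hai : a i ∈ adjoin F S := subset_adjoin F S ⟨i, hi, rfl⟩
  have h1 : (⟨a i, hai⟩ : adjoin F S) ∈ F⟮y⟯ := by rw [hy]; exact mem_top
  have h2 : F⟮y⟯.map (adjoin F S).val = F⟮(y : K)⟯ := by
    rw [adjoin_map, Set.image_singleton]
    rfl
  rw [← h2]
  exact ⟨_, h1, rfl⟩

variable (q : ℕ) [ExpChar F q]

/-- the induction on the degree -/
theorem sep_pow (n : ℕ) : ∀ x : K, DegLe F n x → IsSeparable F (x ^ q ^ n) := by
  induction n using Nat.strong_induction_on with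
  | _ n ih =>
    intro x hx
    have hxi := hx.isIntegral
    rw [degLe_iff hxi] at hx
    by_cases hs : IsSeparable F x
    · rw [← mem_separableClosure_iff] at hs ⊢
      exact pow_mem hs _
    · rcases ‹ExpChar F q› with _ | ⟨hq⟩
      · exact absurd (minpoly.irreducible hxi).separable hs
      · rename_i hchar
        rcases separable_or q (minpoly.irreducible hxi) with h | ⟨-, g, hg, hgf⟩
        · exact absurd h hs
        · have hdeg : g.natDegree * q ≤ n := by rw [← natDegree_expand, hgf]; exact hx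
          have hg0 : 0 < g.natDegree := Irreducible.natDegree_pos hg
          have hlt : g.natDegree < n := by
            have := hq.two_le
            nlinarith
          have h1 : DegLe F g.natDegree (x ^ q) := by
            refine ⟨g, hg.ne_zero, le_rfl, ?_⟩
            rw [← expand_aeval, hgf]
            exact minpoly.aeval F x
          have h2 := ih _ hlt _ h1
          rw [← mem_separableClosure_iff] at h2 ⊢
          have h3 : x ^ q ^ n = ((x ^ q) ^ q ^ g.natDegree) ^ q ^ (n - (g.natDegree + 1)) := by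
            rw [← pow_mul, ← pow_mul, ← mul_assoc, ← pow_succ', ← pow_add, Nat.add_sub_cancel' hlt]
          rw [h3]
          exact pow_mem h2 _

/-- separable elements are the elements of `F[x ^ q]` -/
theorem sep_iff {x : K} (hx : IsIntegral F x) :
    IsSeparable F x ↔ x ∈ Algebra.adjoin F {x ^ q} := by
  have hxq : IsIntegral F (x ^ q) := hx.pow q
  rw [mem_adjoin_iff hxq]
  constructor
  · intro h
    rw [← adjoin_simple_eq_adjoin_pow_expChar_of_isSeparable F K h q]
    exact mem_adjoin_simple_self F x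
  · intro h
    by_contra hs
    rcases ‹ExpChar F q› with _ | ⟨hq⟩
    · exact hs (minpoly.irreducible hx).separable
    · rename_i hchar
      rcases separable_or q (minpoly.irreducible hx) with h' | ⟨-, g, hg, hgf⟩
      · exact hs h'
      · have h1 : DegLe F g.natDegree (x ^ q) := by
          refine ⟨g, hg.ne_zero, le_rfl, ?_⟩
          rw [← expand_aeval, hgf]
          exact minpoly.aeval F x
        have h2 : DegLe F g.natDegree x := h1.of_mem ((mem_adjoin_iff hxq).2 h)
        rw [degLe_iff hx, ← hgf, natDegree_expand] at h2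
        have hg0 : 0 < g.natDegree := Irreducible.natDegree_pos hg
        have := hq.two_le
        nlinarith

end Pool.Agent.Q205.CP
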