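import Pool.Agent.Q205.CP.Gp

set_option autoImplicit false

/-!
Certificates for general position.
-/

namespace Pool.Agent.Q205.CP

open Polynomial

/-- the product of the differences -/
def vd {R : Type} [CommRing R] (x : ℕ → R) (N : ℕ) : R :=
  ∏ j ∈ Finset.range N, ∏ k ∈ Finset.range j, (x j + (-1) * x k)

theorem map_vd {R S : Type} [CommRing R] [CommRing S] (φ : R →+* S) (x : ℕ → R) (N : ℕ) :
    φ (vd x N) = vd (fun j => φ (x j)) N := by
  rw [vd, vd, map_prod]
  refine Finset.prod_congr rfl fun j _ => ?_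
  rw [map_prod]
  refine Finset.prod_congr rfl fun k _ => ?_
  rw [map_add, map_mul, map_neg, map_one]

theorem vd_congr {R : Type} [CommRing R] {x y : ℕ → R} {N : ℕ} (h : ∀ j < N, x j = y j) :
    vd x N = vd y N := by
  rw [vd, vd]
  refine Finset.prod_congr rfl fun j hj => Finset.prod_congr rfl fun k hk => ?_
  rw [Finset.mem_range] at hj hk
  rw [h j hj, h k (hk.trans hj)]

theorem vd_ne_zero {L : Type} [Field L] {x : ℕ → L} {N : ℕ}
    (h : ∀ i < N, ∀ j < N, x i = x j → i = j) : vd x N ≠ 0 := by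
  rw [vd]
  refine Finset.prod_ne_zero_iff.2 fun j hj => Finset.prod_ne_zero_iff.2 fun k hk => ?_
  rw [Finset.mem_range] at hj hk
  intro h0
  have h1 : x j = x k := by
    have : x j - x k = 0 := by rw [← h0]; ring
    exact sub_eq_zero.1 this
  have := h j hj k (hk.trans hj) h1
  omega

theorem inj_of_vd {L : Type} [Field L] {x : ℕ → L} {N : ℕ} (h : vd x N ≠ 0) :
    ∀ i < N, ∀ j < N, x i = x j → i = j := by
  have key : ∀ j < N, ∀ k < j, x j ≠ x k := by
    intro j hj k hk he
    rw [vd] at h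
    have h1 := Finset.prod_ne_zero_iff.1 h j (Finset.mem_range.2 hj)
    have h2 := Finset.prod_ne_zero_iff.1 h1 k (Finset.mem_range.2 hk)
    apply h2
    rw [he]
    ring
  intro i hi j hj hij
  rcases lt_trichotomy i j with h1 | h1 | h1
  · exact absurd hij.symm (key j hj i h1)
  · exact h1
  · exact absurd hij (key i hi j h1)

variable {F : Type} [Field F]

/-- the certificate for general position at level `n` -/
def Cert (n : ℕ) (M f : F[X]) : Prop :=
  ∃ (k : ℕ) (c : ℕ → ℕ → MvPolynomial ℕ F) (q : ℕ → ℕ → ℕ → MvPolynomial ℕ F),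
    ∀ s < n * n, ∀ t < n * n,
      ∑ j ∈ Finset.range (n * n), c s j * ((MvPolynomial.X j) ^ (t % n) *
        (aeval (MvPolynomial.X j : MvPolynomial ℕ F) f) ^ (t / n)) =
      (if t = s then (vd (fun j => (MvPolynomial.X j : MvPolynomial ℕ F)) (n * n)) ^ k else 0) +
        ∑ j ∈ Finset.range (n * n), q s t j * aeval (MvPolynomial.X j : MvPolynomial ℕ F) M

/-- soundness -/
theorem Cert.sound {L : Type} [Field L] [Algebra F L] {n : ℕ} {M f : F[X]} (h : Cert n M f)
    {ρ : ℕ → L} (hinj : ∀ i < n * n, ∀ j < n * n, ρ i = ρ j → i = j)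
    (hM : ∀ j < n * n, aeval (ρ j) M = 0) {c : ℕ → L}
    (hc : ∀ j < n * n, ∑ t ∈ Finset.range (n * n),
      c t * (ρ j ^ (t % n) * (aeval (ρ j) f) ^ (t / n)) = 0) : ∀ t < n * n, c t = 0 := by
  obtain ⟨k, C', q, h⟩ := h
  intro s hs
  have hX : ∀ (j : ℕ) (g : F[X]), MvPolynomial.aeval ρ
      (aeval (MvPolynomial.X j : MvPolynomial ℕ F) g) = aeval (ρ j) g := by
    intro j g
    rw [← aeval_algHom_apply, MvPolynomial.aeval_X]
  have h1 : ∀ t < n * n, ∑ j ∈ Finset.range (n * n), MvPolynomial.aeval ρ (C' s j) *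
      (ρ j ^ (t % n) * (aeval (ρ j) f) ^ (t / n)) = if t = s then (vd ρ (n * n)) ^ k else 0 := by
    intro t ht
    have h2 := congrArg (MvPolynomial.aeval ρ) (h s hs t ht)
    rw [map_sum, map_add, map_sum] at h2
    have h3 : ∑ j ∈ Finset.range (n * n), MvPolynomial.aeval ρ
        (q s t j * aeval (MvPolynomial.X j : MvPolynomial ℕ F) M) = 0 := by
      refine Finset.sum_eq_zero fun j hj => ?_
      rw [map_mul, hX, hM j (Finset.mem_range.1 hj), mul_zero]
    rw [h3, add_zero] at h2
    have h4 : MvPolynomial.aeval ρ (if t = s then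
        (vd (fun j => (MvPolynomial.X j : MvPolynomial ℕ F)) (n * n)) ^ k else 0) =
        if t = s then (vd ρ (n * n)) ^ k else 0 := by
      split_ifs
      · rw [map_pow]
        congr 1
        have := map_vd (MvPolynomial.aeval ρ : MvPolynomial ℕ F →ₐ[F] L).toRingHom
          (fun j => (MvPolynomial.X j : MvPolynomial ℕ F)) (n * n)
        refine this.trans ?_
        refine vd_congr fun j _ => ?_
        exact MvPolynomial.aeval_X ρ j
      · rw [map_zero]
    rw [h4] at h2
    rw [← h2]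
    refine Finset.sum_congr rfl fun j _ => ?_
    rw [map_mul, map_mul, map_pow, map_pow, hX, MvPolynomial.aeval_X]
  have h5 : c s * (vd ρ (n * n)) ^ k = 0 := by
    have h6 : ∑ t ∈ Finset.range (n * n), c t * (∑ j ∈ Finset.range (n * n),
        MvPolynomial.aeval ρ (C' s j) * (ρ j ^ (t % n) * (aeval (ρ j) f) ^ (t / n))) =
        c s * (vd ρ (n * n)) ^ k := by
      rw [Finset.sum_eq_single s]
      · rw [h1 s hs, if_pos rfl]
      · intro t ht hts
        rw [h1 t (Finset.mem_range.1 ht), if_neg hts, mul_zero]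
      · intro h7
        exact absurd (Finset.mem_range.2 hs) h7
    rw [← h6]
    simp only [Finset.mul_sum]
    rw [Finset.sum_comm]
    refine Finset.sum_eq_zero fun j hj => ?_
    have h8 := hc j (Finset.mem_range.1 hj)
    calc ∑ t ∈ Finset.range (n * n), c t * (MvPolynomial.aeval ρ (C' s j) *
          (ρ j ^ (t % n) * (aeval (ρ j) f) ^ (t / n)))
        = MvPolynomial.aeval ρ (C' s j) * ∑ t ∈ Finset.range (n * n),
            c t * (ρ j ^ (t % n) * (aeval (ρ j) f) ^ (t / n)) := by
          rw [Finset.mul_sum]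
          refine Finset.sum_congr rfl fun t _ => ?_
          ring
      _ = 0 := by rw [h8, mul_zero]
  rcases mul_eq_zero.1 h5 with h6 | h6
  · exact h6
  · exact absurd h6 (pow_ne_zero _ (vd_ne_zero hinj))

section exist

variable (n : ℕ) (M f : F[X])

/-- the variables -/
noncomputable def xv (N : ℕ) (j : ℕ) : MvPolynomial (Fin N) F :=
  if h : j < N then MvPolynomial.X ⟨j, h⟩ else 0

/-- the matrix of the monomials in the variables -/
noncomputable def gx : Matrix (Fin (n * n)) (Fin (n * n)) (MvPolynomial (Fin (n * n)) F) :=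
  gm n f fun j => MvPolynomial.X j

/-- the ideal -/
noncomputable def gi : Ideal (MvPolynomial (Fin (n * n)) F) :=
  Ideal.span {(gx n f).det} ⊔ Ideal.span (Set.range fun j : Fin (n * n) =>
    aeval (MvPolynomial.X j : MvPolynomial (Fin (n * n)) F) M)

variable {n M f}

theorem vd_mem_radical (hg : Good n M f) :
    vd (xv (F := F) (n * n)) (n * n) ∈ (gi n M f).radical := by
  rw [Ideal.radical_eq_jacobson, Ideal.jacobson, Ideal.mem_sInf]
  rintro P ⟨hP, hPm⟩
  by_contra hV
  let _ : Field (MvPolynomial (Fin (n * n)) F ⧸ P) := Ideal.Quotient.field P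
  have hft : Algebra.FiniteType F (MvPolynomial (Fin (n * n)) F ⧸ P) :=
    Algebra.FiniteType.of_surjective (Ideal.Quotient.mkₐ F P) (Ideal.Quotient.mkₐ_surjective F P)
  have hfin : Module.Finite F (MvPolynomial (Fin (n * n)) F ⧸ P) :=
    finite_of_finite_type_of_isJacobsonRing _ _
  have halg : Algebra.IsAlgebraic F (MvPolynomial (Fin (n * n)) F ⧸ P) :=
    Algebra.IsAlgebraic.of_finite F _
  let ψ : (MvPolynomial (Fin (n * n)) F ⧸ P) →ₐ[F] AlgebraicClosure F := IsAlgClosed.lift
  let φ : MvPolynomial (Fin (n * n)) F →ₐ[F] AlgebraicClosure F :=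
    ψ.comp (Ideal.Quotient.mkₐ F P)
  have hφ : ∀ x, φ x = 0 ↔ x ∈ P := by
    intro x
    show ψ (Ideal.Quotient.mk P x) = 0 ↔ x ∈ P
    rw [map_eq_zero_iff ψ ψ.toRingHom.injective, Ideal.Quotient.eq_zero_iff_mem]
  set ρ : Fin (n * n) → AlgebraicClosure F := fun j => φ (MvPolynomial.X j) with hρ
  have hX : ∀ (j : Fin (n * n)) (g : F[X]),
      φ (aeval (MvPolynomial.X j : MvPolynomial (Fin (n * n)) F) g) = aeval (ρ j) g := by
    intro j g
    rw [← aeval_algHom_apply]
  have h1 : ∀ j, aeval (ρ j) M = 0 := by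
    intro j
    rw [← hX, hφ]
    exact hP (Ideal.mem_sup_right (Ideal.subset_span ⟨j, rfl⟩))
  have h2 : (gm n f ρ).det = 0 := by
    have h3 : φ (gx n f).det = 0 := by
      rw [hφ]
      exact hP (Ideal.mem_sup_left (Ideal.subset_span rfl))
    have h4 : φ (gx n f).det = (φ.toRingHom.mapMatrix (gx n f)).det :=
      RingHom.map_det φ.toRingHom _
    rw [h4] at h3
    rw [← h3]
    congr 1
    ext j t
    rw [RingHom.mapMatrix_apply, Matrix.map_apply, gx, gm, gm, Matrix.of_apply, Matrix.of_apply]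
    show _ = φ _
    rw [map_mul, map_pow, map_pow, hX]
  have h5 : φ (vd (xv (F := F) (n * n)) (n * n)) ≠ 0 := fun h => hV ((hφ _).1 h)
  have h6 : φ (vd (xv (F := F) (n * n)) (n * n)) =
      vd (fun j => φ (xv (n * n) j)) (n * n) := map_vd φ.toRingHom _ _
  rw [h6] at h5
  have h7 := inj_of_vd h5
  refine hg ρ ?_ h1 h2
  intro i j hij
  refine Fin.ext (h7 i i.2 j j.2 ?_)
  rw [xv, xv, dif_pos i.2, dif_pos j.2]
  exact hij

/-- completeness -/
theorem cert_of_good (hg : Good n M f) : Cert n M f := by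
  classical
  obtain ⟨k, hk⟩ := vd_mem_radical hg
  rw [gi, Submodule.mem_sup] at hk
  obtain ⟨a, ha, b, hb, hab⟩ := hk
  rw [Ideal.mem_span_singleton'] at ha
  obtain ⟨E, rfl⟩ := ha
  rw [Ideal.mem_span_range_iff_exists_fun] at hb
  obtain ⟨q, rfl⟩ := hb
  -- the inclusion of rings
  let ι : MvPolynomial (Fin (n * n)) F →ₐ[F] MvPolynomial ℕ F := MvPolynomial.rename Fin.val
  have hιX : ∀ j : Fin (n * n), ι (MvPolynomial.X j) = MvPolynomial.X j.val := fun j =>
    MvPolynomial.rename_X _ _
  have hιg : ∀ (j : Fin (n * n)) (g : F[X]),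
      ι (aeval (MvPolynomial.X j : MvPolynomial (Fin (n * n)) F) g) =
        aeval (MvPolynomial.X j.val : MvPolynomial ℕ F) g := by
    intro j g
    rw [← aeval_algHom_apply, hιX]
  have hιV : ι (vd (xv (F := F) (n * n)) (n * n)) =
      vd (fun j => (MvPolynomial.X j : MvPolynomial ℕ F)) (n * n) := by
    refine (map_vd ι.toRingHom _ _).trans (vd_congr fun j hj => ?_)
    rw [xv, dif_pos hj]
    exact hιX ⟨j, hj⟩
  have hid : ∀ s t : Fin (n * n), ∑ j : Fin (n * n), (E * (gx n f).adjugate s j) * gx n f j t =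
      (if t = s then (vd (xv (F := F) (n * n)) (n * n)) ^ k else 0) +
        ∑ j : Fin (n * n), (if t = s then -q j else 0) *
          aeval (MvPolynomial.X j : MvPolynomial (Fin (n * n)) F) M := by
    intro s t
    have h1 : ∑ j : Fin (n * n), (gx n f).adjugate s j * gx n f j t =
        if t = s then (gx n f).det else 0 := by
      have h2 := congrFun (congrFun (Matrix.adjugate_mul (gx n f)) s) t
      rw [Matrix.mul_apply, Matrix.smul_apply, Matrix.one_apply] at h2
      rw [h2]
      by_cases hst : t = s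
      · rw [if_pos hst, if_pos hst.symm, smul_eq_mul, mul_one]
      · rw [if_neg hst, if_neg (Ne.symm hst), smul_zero]
    have h3 : ∑ j : Fin (n * n), (E * (gx n f).adjugate s j) * gx n f j t =
        E * ∑ j : Fin (n * n), (gx n f).adjugate s j * gx n f j t := by
      rw [Finset.mul_sum]
      exact Finset.sum_congr rfl fun j _ => mul_assoc _ _ _
    rw [h3, h1]
    by_cases hst : t = s
    · simp only [if_pos hst]
      rw [← hab]
      simp only [neg_mul, Finset.sum_neg_distrib]
      ring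
    · simp only [if_neg hst]
      simp
  refine ⟨k, fun s j => if h : s < n * n ∧ j < n * n then
      ι (E * (gx n f).adjugate ⟨s, h.1⟩ ⟨j, h.2⟩) else 0,
    fun s t j => if h : j < n * n then (if t = s then ι (-q ⟨j, h⟩) else 0) else 0, ?_⟩
  intro s hs t ht
  have h4 := congrArg ι (hid ⟨s, hs⟩ ⟨t, ht⟩)
  rw [map_sum, map_add, map_sum] at h4
  rw [Finset.sum_range, Finset.sum_range]
  have h5 : ∑ j : Fin (n * n), (if h : s < n * n ∧ (j : ℕ) < n * n then
      ι (E * (gx n f).adjugate ⟨s, h.1⟩ ⟨j, h.2⟩) else 0) *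
      ((MvPolynomial.X (j : ℕ)) ^ (t % n) *
        (aeval (MvPolynomial.X (j : ℕ) : MvPolynomial ℕ F) f) ^ (t / n)) =
      ∑ j : Fin (n * n), ι ((E * (gx n f).adjugate ⟨s, hs⟩ j) * gx n f j ⟨t, ht⟩) := by
    refine Finset.sum_congr rfl fun j _ => ?_
    rw [dif_pos ⟨hs, j.2⟩, map_mul ι (E * _)]
    congr 1
    rw [gx, gm, Matrix.of_apply, map_mul, map_pow, map_pow, hιg, hιX]
  rw [h5, h4]
  congr 1
  · by_cases hst : t = s
    · rw [if_pos hst, if_pos (Fin.ext hst), map_pow, hιV]
    · rw [if_neg hst, if_neg (fun h => hst (congrArg Fin.val h)), map_zero]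
  · refine Finset.sum_congr rfl fun j _ => ?_
    beta_reduce
    rw [dif_pos j.2, map_mul, hιg]
    congr 1
    by_cases hst : t = s
    · rw [if_pos hst, if_pos (Fin.ext hst)]
    · rw [if_neg hst, if_neg (fun h => hst (congrArg Fin.val h)), map_zero]

end exist

end Pool.Agent.Q205.CP
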