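import Pool.Agent.Q205.CP.Mp
import Pool.Agent.Q205.CP.Cert

set_option autoImplicit false

/-!
Computability of the search for certificates.
-/

namespace Pool.Agent.Q205.CP

open Polynomial Filter Pool.Agent.Q205.PKL
open Pool.Agent.Helper446.RE hiding allB allB_iff

section chk

variable {F : Type} [Field F] (N : RNum F) (mo : ℕ)

/-- the product of the differences of the variables -/
noncomputable def vand (k : ℕ) : ℕ :=
  (Mp.rnum N).prod (fun j => (Mp.rnum N).prod (fun i =>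
    (Mp.rnum N).add (Mp.var N j) ((Mp.rnum N).mul (Mp.cst mo) (Mp.var N i))) j) k

theorem e_vand (hmo : N.e mo = -1) (k : ℕ) : (Mp.rnum N).e (vand N mo k) =
    vd (fun j => (MvPolynomial.X j : MvPolynomial ℕ F)) k := by
  rw [vand, RNum.e_prod, vd]
  refine Finset.prod_congr rfl fun j _ => ?_
  rw [RNum.e_prod]
  refine Finset.prod_congr rfl fun i _ => ?_
  rw [RNum.eadd, RNum.emul]
  show Mp.pe N _ + Mp.pe N _ * Mp.pe N _ = _
  rw [Mp.pe_var, Mp.pe_var, Mp.pe_cst, hmo, map_neg, map_one]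

theorem c_vand {α : Type*} [Primcodable α] {f : α → ℕ} (hf : Computable f) :
    Computable fun a => vand N mo (f a) := by
  unfold vand
  refine (Mp.rnum N).c_prod (g := fun (_ : α) j => (Mp.rnum N).prod (fun i =>
    (Mp.rnum N).add (Mp.var N j) ((Mp.rnum N).mul (Mp.cst mo) (Mp.var N i))) j) ?_ hf
  refine (Mp.rnum N).c_prod (g := fun (x : α × ℕ) i =>
    (Mp.rnum N).add (Mp.var N x.2) ((Mp.rnum N).mul (Mp.cst mo) (Mp.var N i))) ?_ (by fun_prop)
  exact (Mp.rnum N).c_add (by fun_prop) ((Mp.rnum N).c_mul (by fun_prop) (by fun_prop))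

/-- left side -/
noncomputable def lhs (n f w s t : ℕ) : ℕ :=
  (Mp.rnum N).sum (fun j => (Mp.rnum N).mul (Mp.ent w (Nat.pair s j))
    ((Mp.rnum N).mul ((Mp.rnum N).pow (Mp.var N j) (t % n))
      ((Mp.rnum N).pow ((Mp.rnum N).pv Mp.cst f (Mp.var N j)) (t / n)))) (n * n)

/-- right side -/
noncomputable def rhs (n M w k s t : ℕ) : ℕ :=
  (Mp.rnum N).add (bif decide (t = s) then (Mp.rnum N).pow (vand N mo (n * n)) k else
    (Mp.rnum N).z) ((Mp.rnum N).sum (fun j => (Mp.rnum N).mul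
      (Mp.ent w (Nat.pair s (Nat.pair t j))) ((Mp.rnum N).pv Mp.cst M (Mp.var N j))) (n * n))

/-- the check of a certificate -/
noncomputable def check (n M f w : ℕ) : Bool :=
  allB (fun s => allB (fun t => (Mp.rnum N).eqb (lhs N n f w.unpair.1.unpair.1 s t)
    (rhs N mo n M w.unpair.1.unpair.2 w.unpair.2 s t)) (n * n)) (n * n)

theorem e_pvX (m j : ℕ) : (Mp.rnum N).e ((Mp.rnum N).pv Mp.cst m (Mp.var N j)) =
    aeval (MvPolynomial.X j : MvPolynomial ℕ F) (pol N.e m) := by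
  have h := (Mp.rnum N).e_pv (F := F) (eF := N.e) (h := Mp.cst)
    (fun n => by
      show Mp.pe N _ = _
      rw [Mp.pe_cst]
      rfl) m (Mp.var N j)
  rw [h]
  show aeval (Mp.pe N _) _ = _
  rw [Mp.pe_var]

theorem e_lhs (n f w s t : ℕ) : (Mp.rnum N).e (lhs N n f w s t) =
    ∑ j ∈ Finset.range (n * n), Mp.pe N (Mp.ent w (Nat.pair s j)) *
      ((MvPolynomial.X j) ^ (t % n) *
        (aeval (MvPolynomial.X j : MvPolynomial ℕ F) (pol N.e f)) ^ (t / n)) := by
  rw [lhs, RNum.e_sum]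
  refine Finset.sum_congr rfl fun j _ => ?_
  rw [RNum.emul, RNum.emul, RNum.e_pow, RNum.e_pow, e_pvX]
  show Mp.pe N _ * (Mp.pe N _ ^ _ * _) = _
  rw [Mp.pe_var]

theorem e_rhs (hmo : N.e mo = -1) (n M w k s t : ℕ) : (Mp.rnum N).e (rhs N mo n M w k s t) =
    (if t = s then (vd (fun j => (MvPolynomial.X j : MvPolynomial ℕ F)) (n * n)) ^ k else 0) +
    ∑ j ∈ Finset.range (n * n), Mp.pe N (Mp.ent w (Nat.pair s (Nat.pair t j))) *
      aeval (MvPolynomial.X j : MvPolynomial ℕ F) (pol N.e M) := by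
  rw [rhs, RNum.eadd, RNum.e_sum]
  congr 1
  · by_cases h : t = s
    · simp only [h, decide_true, cond_true, if_true]
      rw [RNum.e_pow, e_vand N mo hmo]
    · simp only [h, decide_false, cond_false, if_false]
      rw [RNum.ez]
  · refine Finset.sum_congr rfl fun j _ => ?_
    rw [RNum.emul, e_pvX]
    rfl

theorem cert_of_check (hmo : N.e mo = -1) {n M f w : ℕ} (h : check N mo n M f w = true) :
    Cert n (pol N.e M) (pol N.e f) := by
  rw [check, allB_iff] at h
  refine ⟨w.unpair.2, fun s j => Mp.pe N (Mp.ent w.unpair.1.unpair.1 (Nat.pair s j)),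
    fun s t j => Mp.pe N (Mp.ent w.unpair.1.unpair.2 (Nat.pair s (Nat.pair t j))), ?_⟩
  intro s hs t ht
  have h1 := h s hs
  rw [allB_iff] at h1
  have h2 := h1 t ht
  rw [RNum.eqb_iff, e_lhs, e_rhs N mo hmo] at h2
  exact h2

theorem check_of_cert (hmo : N.e mo = -1) (hs : Function.Surjective N.e) {n M f : ℕ}
    (h : Cert n (pol N.e M) (pol N.e f)) : ∃ w, check N mo n M f w = true := by
  obtain ⟨k, c, q, h⟩ := h
  have hsur := Mp.pe_surj N hs
  choose g hg using hsur
  -- a bound for the indices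
  obtain ⟨B, hB⟩ : ∃ B : ℕ, ∀ s < n * n, ∀ t < n * n, ∀ j < n * n,
      Nat.pair s j < B ∧ Nat.pair s (Nat.pair t j) < B := by
    set S : Finset ℕ := (Finset.range (n * n)).biUnion fun s => (Finset.range (n * n)).biUnion
      fun t => (Finset.range (n * n)).biUnion fun j =>
        {Nat.pair s j, Nat.pair s (Nat.pair t j)} with hS
    refine ⟨S.sup id + 1, fun s hs t ht j hj => ?_⟩
    have h1 : ∀ x ∈ S, x < S.sup id + 1 := fun x hx => Nat.lt_succ_of_le (Finset.le_sup
      (f := id) hx)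
    constructor
    · apply h1
      simp only [hS, Finset.mem_biUnion, Finset.mem_range]
      exact ⟨s, hs, t, ht, j, hj, by simp⟩
    · apply h1
      simp only [hS, Finset.mem_biUnion, Finset.mem_range]
      exact ⟨s, hs, t, ht, j, hj, by simp⟩
  refine ⟨Nat.pair (Nat.pair (Mp.mk (fun i => g (c i.unpair.1 i.unpair.2)) B)
    (Mp.mk (fun i => g (q i.unpair.1 i.unpair.2.unpair.1 i.unpair.2.unpair.2)) B)) k, ?_⟩
  rw [check, allB_iff]
  intro s hs
  rw [allB_iff]
  intro t ht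
  simp only [Nat.unpair_pair]
  rw [RNum.eqb_iff, e_lhs, e_rhs N mo hmo]
  refine Eq.trans ?_ ((h s hs t ht).trans ?_)
  · refine Finset.sum_congr rfl fun j hj => ?_
    rw [Finset.mem_range] at hj
    rw [Mp.ent_mk (hB s hs t ht j hj).1, Nat.unpair_pair, hg]
  · congr 1
    refine Finset.sum_congr rfl fun j hj => ?_
    rw [Finset.mem_range] at hj
    rw [Mp.ent_mk (hB s hs t ht j hj).2, Nat.unpair_pair]
    simp only [Nat.unpair_pair]
    rw [hg]

theorem c_check {α : Type*} [Primcodable α] {n M f w : α → ℕ} (hn : Computable n)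
    (hM : Computable M) (hf : Computable f) (hw : Computable w) :
    Computable fun a => check N mo (n a) (M a) (f a) (w a) := by
  unfold check
  refine c_allB (f := fun a s => allB (fun t => (Mp.rnum N).eqb
    (lhs N (n a) (f a) (w a).unpair.1.unpair.1 s t)
    (rhs N mo (n a) (M a) (w a).unpair.1.unpair.2 (w a).unpair.2 s t)) (n a * n a)) ?_
    (by fun_prop)
  refine c_allB (f := fun (x : α × ℕ) t => (Mp.rnum N).eqb
    (lhs N (n x.1) (f x.1) (w x.1).unpair.1.unpair.1 x.2 t)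
    (rhs N mo (n x.1) (M x.1) (w x.1).unpair.1.unpair.2 (w x.1).unpair.2 x.2 t)) ?_ (by fun_prop)
  refine (Mp.rnum N).c_eqb ?_ ?_
  · unfold lhs
    refine (Mp.rnum N).c_sum (g := fun (x : (α × ℕ) × ℕ) j => (Mp.rnum N).mul
      (Mp.ent (w x.1.1).unpair.1.unpair.1 (Nat.pair x.1.2 j))
      ((Mp.rnum N).mul ((Mp.rnum N).pow (Mp.var N j) (x.2 % n x.1.1))
      ((Mp.rnum N).pow ((Mp.rnum N).pv Mp.cst (f x.1.1) (Mp.var N j)) (x.2 / n x.1.1)))) ?_
      (by fun_prop)
    refine (Mp.rnum N).c_mul (by fun_prop) ((Mp.rnum N).c_mul (by fun_prop) ?_)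
    refine (Mp.rnum N).c_pow ?_ (by fun_prop)
    exact (Mp.rnum N).c_pv (Mp.c_cst (by fun_prop)) (by fun_prop) (by fun_prop)
  · unfold rhs
    refine (Mp.rnum N).c_add ?_ ?_
    · refine ccond (by fun_prop) ((Mp.rnum N).c_pow (c_vand N mo (by fun_prop)) (by fun_prop))
        (by fun_prop)
    · refine (Mp.rnum N).c_sum (g := fun (x : (α × ℕ) × ℕ) j => (Mp.rnum N).mul
        (Mp.ent (w x.1.1).unpair.1.unpair.2 (Nat.pair x.1.2 (Nat.pair x.2 j)))
        ((Mp.rnum N).pv Mp.cst (M x.1.1) (Mp.var N j))) ?_ (by fun_prop)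
      refine (Mp.rnum N).c_mul (by fun_prop) ?_
      exact (Mp.rnum N).c_pv (Mp.c_cst (by fun_prop)) (by fun_prop) (by fun_prop)

end chk

end Pool.Agent.Q205.CP
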