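import Mathlib

set_option autoImplicit false

/-!
# Cohesive powers of computable fields: the definitions
-/

namespace Pool.Agent.Q205.CP

open Filter

/-- `C` is infinite, and for every computably enumerable set `W` the set `C \ W` or the set `C ∩ W`
is finite. -/
def Cohesive (C : Set ℕ) : Prop :=
  C.Infinite ∧ ∀ W : ℕ → Prop, REPred W → (C \ {n | W n}).Finite ∨ (C ∩ {n | W n}).Finite

/-- The filter for almost every `i`: a property holds for almost every `i` if it holds for all but
finitely many elements of `C`. -/
def ae (C : Set ℕ) : Filter ℕ := cofinite ⊓ 𝓟 C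

/-- `A` is a computable field: its elements have different numbers, the set of these numbers is
computable, and addition and multiplication are computable on it. -/
structure CompField (A : Type) [Field A] where
  /-- the number of an element -/
  code : A → ℕ
  inj : Function.Injective code
  dom : ComputablePred fun n : ℕ => ∃ x, code x = n
  add : ∃ f : ℕ × ℕ → ℕ, Computable f ∧ ∀ x y, f (code x, code y) = code (x + y)
  mul : ∃ f : ℕ × ℕ → ℕ, Computable f ∧ ∀ x y, f (code x, code y) = code (x * y)

/-- The embedding of the computable field `F` in the computable field `K` is computable. -/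
def CompEmb {F K : Type} [Field F] [Field K] [Algebra F K] (P : CompField F) (Q : CompField K) :
    Prop :=
  ∃ f : ℕ → ℕ, Computable f ∧ ∀ x, f (P.code x) = Q.code (algebraMap F K x)

section power

variable {A : Type} [Field A] (P : CompField A) (C : Set ℕ)

/-- `f` agrees for almost every `i` with a partial computable function (defined at these `i`). -/
def IsPC (f : ℕ → A) : Prop :=
  ∃ φ : ℕ →. ℕ, Partrec φ ∧ ∀ᶠ i in ae C, P.code (f i) ∈ φ i

variable {P C}

theorem IsPC.const (a : A) : IsPC P C fun _ => a :=
  ⟨fun _ => Part.some (P.code a), Computable.const _, Eventually.of_forall fun _ => Part.mem_some _⟩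

theorem IsPC.map₂ {f g : ℕ → A} (op : A → A → A)
    (hop : ∃ F : ℕ × ℕ → ℕ, Computable F ∧ ∀ x y, F (P.code x, P.code y) = P.code (op x y))
    (hf : IsPC P C f) (hg : IsPC P C g) : IsPC P C fun i => op (f i) (g i) := by
  obtain ⟨φ, h1, h2⟩ := hf
  obtain ⟨ψ, h3, h4⟩ := hg
  obtain ⟨F, h5, h6⟩ := hop
  refine ⟨fun n => (φ n).bind fun a => (ψ n).map fun b => F (a, b), ?_, ?_⟩
  · refine Partrec.bind h1 ?_
    have h7 : Partrec fun p : ℕ × ℕ => ψ p.1 := h3.comp Computable.fst
    have h8 : Computable₂ fun (p : ℕ × ℕ) (b : ℕ) => F (p.2, b) :=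
      h5.comp ((Computable.snd.comp Computable.fst).pair Computable.snd)
    exact (h7.map h8).to₂
  · filter_upwards [h2, h4] with n a b
    rw [← h6]
    exact Part.mem_bind a (Part.mem_map _ b)

variable (P C)

/-- The cohesive power `∏_C A`: the ring of the classes of the functions `f : ℕ → A` which agree for
almost every `i` with a partial computable function, two functions being in the same class if they
agree for almost every `i`, with pointwise addition and multiplication. -/
def Power : Subring ((ae C).Germ A) where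
  carrier := {g | ∃ f : ℕ → A, IsPC P C f ∧ (f : (ae C).Germ A) = g}
  mul_mem' := by
    rintro _ _ ⟨f, hf, rfl⟩ ⟨g, hg, rfl⟩
    exact ⟨fun i => f i * g i, hf.map₂ _ P.mul hg, rfl⟩
  one_mem' := ⟨fun _ => 1, IsPC.const 1, rfl⟩
  add_mem' := by
    rintro _ _ ⟨f, hf, rfl⟩ ⟨g, hg, rfl⟩
    exact ⟨fun i => f i + g i, hf.map₂ _ P.add hg, rfl⟩
  zero_mem' := ⟨fun _ => 0, IsPC.const 0, rfl⟩
  neg_mem' := by
    rintro _ ⟨f, hf, rfl⟩
    refine ⟨fun i => (-1) * f i, (IsPC.const (-1)).map₂ _ P.mul hf, ?_⟩
    have h : (fun i => (-1) * f i) = -f := by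
      funext i
      rw [Pi.neg_apply, neg_one_mul]
    rw [h]
    rfl

end power

section ext

variable {F K : Type} [Field F] [Field K] [Algebra F K] {P : CompField F} {Q : CompField K}

theorem IsPC.emb (h : CompEmb P Q) {C : Set ℕ} {f : ℕ → F} (hf : IsPC P C f) :
    IsPC Q C fun i => algebraMap F K (f i) := by
  obtain ⟨φ, h1, h2⟩ := hf
  obtain ⟨G, h3, h4⟩ := h
  refine ⟨fun n => (φ n).map G, h1.map (h3.comp Computable.snd).to₂, ?_⟩
  filter_upwards [h2] with n a
  rw [← h4]
  exact Part.mem_map _ a

/-- The embedding `∏_C F → ∏_C K` induced, pointwise, by the embedding `F → K`. -/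
def powerMap (h : CompEmb P Q) (C : Set ℕ) : Power P C →+* Power Q C where
  toFun g := ⟨Germ.map (algebraMap F K) g.1, by
    obtain ⟨f, hf, hg⟩ := g.2
    exact ⟨fun i => algebraMap F K (f i), hf.emb h, by rw [← hg]; rfl⟩⟩
  map_one' := by
    apply Subtype.ext
    show Germ.map (algebraMap F K) ((fun _ => (1 : F) : ℕ → F) : (ae C).Germ F) = _
    rw [Germ.map_coe]
    have : (algebraMap F K) ∘ (fun _ => (1 : F) : ℕ → F) = fun _ => 1 := by
      funext i
      simp
    rw [this]
    rfl
  map_mul' := by
    rintro ⟨_, f, hf, rfl⟩ ⟨_, g, hg, rfl⟩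
    apply Subtype.ext
    show Germ.map (algebraMap F K) ((fun i => f i * g i : ℕ → F) : (ae C).Germ F) = _
    rw [Germ.map_coe]
    have : (algebraMap F K) ∘ (fun i => f i * g i : ℕ → F) =
        fun i => algebraMap F K (f i) * algebraMap F K (g i) := by
      funext i
      simp
    rw [this]
    rfl
  map_zero' := by
    apply Subtype.ext
    show Germ.map (algebraMap F K) ((fun _ => (0 : F) : ℕ → F) : (ae C).Germ F) = _
    rw [Germ.map_coe]
    have : (algebraMap F K) ∘ (fun _ => (0 : F) : ℕ → F) = fun _ => 0 := by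
      funext i
      simp
    rw [this]
    rfl
  map_add' := by
    rintro ⟨_, f, hf, rfl⟩ ⟨_, g, hg, rfl⟩
    apply Subtype.ext
    show Germ.map (algebraMap F K) ((fun i => f i + g i : ℕ → F) : (ae C).Germ F) = _
    rw [Germ.map_coe]
    have : (algebraMap F K) ∘ (fun i => f i + g i : ℕ → F) =
        fun i => algebraMap F K (f i) + algebraMap F K (g i) := by
      funext i
      simp
    rw [this]
    rfl

end ext

end Pool.Agent.Q205.CP
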