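import Mathlib

set_option autoImplicit false

/-!
General position: polynomials `f` for which the points `(ρ, f(ρ))` are in general position.
-/

namespace Pool.Agent.Q205.CP

open Polynomial

section block

variable {L : Type} [Field L]

theorem coef_zero {n : ℕ} {c x : ℕ → L} (hx : ∀ i < n, ∀ j < n, x i = x j → i = j)
    (h : ∀ r < n, ∑ a ∈ Finset.range n, c a * x r ^ a = 0) : ∀ a < n, c a = 0 := by
  classical
  set p : L[X] := ∑ a ∈ Finset.range n, C (c a) * X ^ a with hp
  have hcoef : ∀ a < n, p.coeff a = c a := by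
    intro a ha
    rw [hp, finsetSum_coeff]
    simp only [coeff_C_mul, coeff_X_pow, mul_ite, mul_one, mul_zero]
    rw [Finset.sum_ite_eq, if_pos (Finset.mem_range.2 ha)]
  intro a ha
  have hn : 0 < n := by omega
  have hdeg : p.natDegree < n := by
    refine lt_of_le_of_lt (natDegree_sum_le_of_forall_le (n := n - 1) _ _ fun j hj => ?_) (by omega)
    refine (natDegree_C_mul_X_pow_le _ _).trans ?_
    have := Finset.mem_range.1 hj
    omega
  have h0 : p = 0 := by
    refine eq_zero_of_natDegree_lt_card_of_eval_eq_zero p (ι := Fin n) (f := fun i => x i) ?_ ?_ ?_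
    · intro i j hij
      exact Fin.ext (hx i i.2 j j.2 hij)
    · intro i
      rw [hp, eval_finsetSum]
      simp only [eval_mul, eval_C, eval_pow, eval_X]
      exact h i i.2
    · rw [Fintype.card_fin]
      exact hdeg
  rw [← hcoef a ha, h0, coeff_zero]

theorem sum_block {A : Type} [AddCommMonoid A] (g : ℕ → A) (n k : ℕ) :
    ∑ t ∈ Finset.range (n * k), g t =
      ∑ b ∈ Finset.range k, ∑ a ∈ Finset.range n, g (n * b + a) := by
  induction k with
  | zero => simp
  | succ k ih => rw [Nat.mul_succ, Finset.sum_range_add, ih, Finset.sum_range_succ]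

/-- the block Vandermonde matrix -/
theorem block_zero {n : ℕ} {c ρ s : ℕ → L}
    (hρ : ∀ i < n * n, ∀ j < n * n, ρ i = ρ j → i = j) (hs : Function.Injective s)
    (h : ∀ j < n * n, ∑ t ∈ Finset.range (n * n), c t * (ρ j ^ (t % n) * s (j / n) ^ (t / n)) = 0) :
    ∀ t < n * n, c t = 0 := by
  intro t ht
  have hn : 0 < n := by
    rcases Nat.eq_zero_or_pos n with h0 | h0
    · subst h0
      omega
    · exact h0
  have key : ∀ b' < n, ∀ a < n, ∑ b ∈ Finset.range n, c (n * b + a) * s b' ^ b = 0 := by
    intro b' hb'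
    refine coef_zero (x := fun r => ρ (n * b' + r)) ?_ ?_
    · intro i hi j hj hij
      have hb2 : n * b' + n ≤ n * n := by
        have := Nat.mul_le_mul_left n hb'
        rw [Nat.mul_succ] at this
        exact this
      have := hρ _ (by omega) _ (by omega) hij
      omega
    · intro r hr
      have hb2 : n * b' + n ≤ n * n := by
        have := Nat.mul_le_mul_left n hb'
        rw [Nat.mul_succ] at this
        exact this
      have h1 := h (n * b' + r) (by omega)
      rw [sum_block, Finset.sum_comm] at h1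
      rw [← h1]
      refine Finset.sum_congr rfl fun a ha => ?_
      rw [Finset.sum_mul]
      refine Finset.sum_congr rfl fun b _ => ?_
      rw [Finset.mem_range] at ha
      rw [Nat.mul_add_mod, Nat.mod_eq_of_lt ha, Nat.mul_add_div hn, Nat.div_eq_of_lt hr,
        Nat.mul_add_div hn, Nat.div_eq_of_lt ha, Nat.add_zero, Nat.add_zero]
      ring
  have h2 : ∀ b < n, c (n * b + t % n) = 0 := by
    refine coef_zero (c := fun b => c (n * b + t % n)) (x := s) (fun i _ j _ hij => hs hij) ?_
    intro r hr
    exact key r hr _ (Nat.mod_lt _ hn)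
  have h3 := h2 (t / n) (by
    rw [Nat.div_lt_iff_lt_mul hn]
    exact ht)
  rwa [Nat.div_add_mod] at h3

end block

variable {F : Type} [Field F]

/-- the matrix of the monomials at the points -/
noncomputable def gm {R : Type} [CommRing R] [Algebra F R] (n : ℕ) (f : F[X])
    (ρ : Fin (n * n) → R) : Matrix (Fin (n * n)) (Fin (n * n)) R :=
  Matrix.of fun j t => ρ j ^ (t.val % n) * (aeval (ρ j) f) ^ (t.val / n)

/-- general position for level `n` -/
def Good (n : ℕ) (M f : F[X]) : Prop :=
  ∀ ρ : Fin (n * n) → AlgebraicClosure F, Function.Injective ρ → (∀ j, aeval (ρ j) M = 0) →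
    (gm n f ρ).det ≠ 0

/-- the generic determinant -/
noncomputable def gd (m n : ℕ) (ρ : Fin (n * n) → AlgebraicClosure F) :
    MvPolynomial (Fin (m * m)) (AlgebraicClosure F) :=
  (Matrix.of fun j t : Fin (n * n) => MvPolynomial.C (ρ j) ^ (t.val % n) *
    (∑ k : Fin (m * m), MvPolynomial.C (ρ j ^ k.val) * MvPolynomial.X k) ^ (t.val / n)).det

theorem eval_gd {m n : ℕ} (ρ : Fin (n * n) → AlgebraicClosure F)
    (u : Fin (m * m) → AlgebraicClosure F) : MvPolynomial.eval u (gd m n ρ) =
      (Matrix.of fun j t : Fin (n * n) => ρ j ^ (t.val % n) *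
        (∑ k : Fin (m * m), ρ j ^ k.val * u k) ^ (t.val / n)).det := by
  rw [gd, RingHom.map_det]
  congr 1
  ext j t
  simp [RingHom.mapMatrix_apply]

theorem gd_ne_zero {m n : ℕ} (hn : n ≤ m) {ρ : Fin (n * n) → AlgebraicClosure F}
    (hρ : Function.Injective ρ) : gd m n ρ ≠ 0 := by
  classical
  intro h0
  have : Infinite (AlgebraicClosure F) := inferInstance
  set s : ℕ → AlgebraicClosure F := fun i => Infinite.natEmbedding (AlgebraicClosure F) i with hs
  have hsi : Function.Injective s := (Infinite.natEmbedding (AlgebraicClosure F)).injective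
  set g : (AlgebraicClosure F)[X] := Lagrange.interpolate Finset.univ ρ
    (fun j => s (j.val / n)) with hg
  have hinj : Set.InjOn ρ (Finset.univ : Finset (Fin (n * n))) := hρ.injOn
  have hgv : ∀ j, eval (ρ j) g = s (j.val / n) := fun j =>
    Lagrange.eval_interpolate_at_node _ hinj (Finset.mem_univ j)
  have hmn : n * n ≤ m * m := Nat.mul_le_mul hn hn
  have hgd : g.degree < (m * m : ℕ) := by
    refine lt_of_lt_of_le (Lagrange.degree_interpolate_lt _ hinj) ?_
    rw [Finset.card_univ, Fintype.card_fin]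
    exact_mod_cast hmn
  have hgs : ∀ j, ∑ k : Fin (m * m), ρ j ^ k.val * g.coeff k.val = s (j.val / n) := by
    intro j
    rw [← hgv j]
    by_cases hg0 : g = 0
    · rw [hg0]
      simp
    · rw [eval_eq_sum_range' ((natDegree_lt_iff_degree_lt hg0).2 hgd),
        Finset.sum_range]
      exact Finset.sum_congr rfl fun k _ => mul_comm _ _
  have h1 := congrArg (MvPolynomial.eval fun k : Fin (m * m) => g.coeff k.val) h0
  rw [eval_gd, map_zero] at h1
  simp only [hgs] at h1
  rw [← Matrix.exists_mulVec_eq_zero_iff] at h1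
  obtain ⟨v, hv, hv'⟩ := h1
  apply hv
  set c : ℕ → AlgebraicClosure F := fun t => if h : t < n * n then v ⟨t, h⟩ else 0 with hc
  set ρ' : ℕ → AlgebraicClosure F := fun t => if h : t < n * n then ρ ⟨t, h⟩ else 0 with hρ'
  have key : ∀ t < n * n, c t = 0 := by
    refine block_zero (ρ := ρ') (s := s) ?_ hsi ?_
    · intro i hi j hj hij
      rw [hρ'] at hij
      simp only [dif_pos hi, dif_pos hj] at hij
      have := hρ hij
      simpa using this
    · intro j hj
      have h2 := congrFun hv' ⟨j, hj⟩
      rw [Matrix.mulVec, dotProduct] at h2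
      simp only [Matrix.of_apply, Pi.zero_apply] at h2
      rw [Finset.sum_range]
      rw [← h2]
      refine Finset.sum_congr rfl fun t _ => ?_
      rw [hc, hρ']
      simp only [dif_pos hj, t.2, dif_pos]
      ring
  funext t
  have := key t.val t.2
  rw [hc] at this
  simpa [t.2] using this

/-- **Existence of polynomials in general position.** -/
theorem exists_good [Infinite F] {M : F[X]} (hM : M ≠ 0) (m : ℕ) :
    ∃ f : F[X], ∀ n ≤ m, Good n M f := by
  classical
  -- the finite set of conditions
  set Z : Set (AlgebraicClosure F) := {x | aeval x M = 0} with hZ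
  have hZf : Z.Finite := by
    refine (rootSet_finite M (AlgebraicClosure F)).subset fun x hx => ?_
    rw [mem_rootSet]
    exact ⟨hM, hx⟩
  set S : Set (MvPolynomial (Fin (m * m)) (AlgebraicClosure F)) :=
    ⋃ n ∈ Set.Iic m, (fun ρ : Fin (n * n) → AlgebraicClosure F => gd m n ρ) ''
      {ρ | Function.Injective ρ ∧ ∀ j, aeval (ρ j) M = 0} with hS
  have hSf : S.Finite := by
    refine Set.Finite.biUnion (Set.finite_Iic m) fun n _ => ?_
    refine Set.Finite.image _ ?_
    refine (Set.Finite.pi (fun _ : Fin (n * n) => hZf)).subset ?_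
    intro ρ hρ j _
    exact hρ.2 j
  have hS0 : ∀ P ∈ S, P ≠ 0 := by
    intro P hP
    simp only [hS, Set.mem_iUnion, Set.mem_image] at hP
    obtain ⟨n, hn, ρ, hρ, rfl⟩ := hP
    exact gd_ne_zero hn hρ.1
  have hprod : ∏ P ∈ hSf.toFinset, P ≠ 0 :=
    Finset.prod_ne_zero_iff.2 fun P hP => hS0 P (hSf.mem_toFinset.1 hP)
  have hex : ∃ u ∈ Set.pi Set.univ (fun _ : Fin (m * m) =>
      Set.range (algebraMap F (AlgebraicClosure F))),
      MvPolynomial.eval u (∏ P ∈ hSf.toFinset, P) ≠ 0 := by
    by_contra hcon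
    push Not at hcon
    apply hprod
    refine MvPolynomial.funext_set (fun _ : Fin (m * m) =>
      Set.range (algebraMap F (AlgebraicClosure F))) (fun _ => ?_) fun u hu => ?_
    · exact Set.infinite_range_of_injective (algebraMap F (AlgebraicClosure F)).injective
    · rw [hcon u hu, map_zero]
  obtain ⟨u, hu, hu'⟩ := hex
  have hu2 : ∀ k, ∃ v : F, algebraMap F (AlgebraicClosure F) v = u k := fun k => hu k trivial
  choose v hv using hu2
  refine ⟨∑ k : Fin (m * m), C (v k) * X ^ k.val, ?_⟩
  intro n hn ρ hρ hρM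
  have h1 : gd m n ρ ∈ S := by
    simp only [hS, Set.mem_iUnion, Set.mem_image]
    exact ⟨n, hn, ρ, ⟨hρ, hρM⟩, rfl⟩
  have h2 : MvPolynomial.eval u (gd m n ρ) ≠ 0 := by
    intro h0
    apply hu'
    rw [map_prod]
    exact Finset.prod_eq_zero (hSf.mem_toFinset.2 h1) h0
  rw [eval_gd] at h2
  have h3 : gm n (∑ k : Fin (m * m), C (v k) * X ^ k.val) ρ =
      Matrix.of fun j t : Fin (n * n) => ρ j ^ (t.val % n) *
        (∑ k : Fin (m * m), ρ j ^ k.val * u k) ^ (t.val / n) := by
    ext j t
    rw [gm, Matrix.of_apply, Matrix.of_apply, map_sum]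
    congr 2
    refine Finset.sum_congr rfl fun k _ => ?_
    rw [map_mul, map_pow, aeval_X, aeval_C, hv, mul_comm]
  rw [h3]
  exact h2

end Pool.Agent.Q205.CP
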