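import Pool.Agent.Q205.CP.Srch

set_option autoImplicit false

/-!
The additive lemma: a computable sequence which leaves `H` under all powers of an endomorphism.
-/

namespace Pool.Agent.Q205.CP

open Filter Pool.Agent.Q205.PKL
open Pool.Agent.Helper446.RE hiding allB allB_iff

variable {A : Type} [AddCommGroup A]

/-- `H + φ^b(A)` -/
def HB (φ : A →+ A) (H : AddSubgroup A) (b : ℕ) : Set A :=
  {x | ∃ u ∈ H, ∃ v, u + φ^[b] v = x}

theorem HB_add {φ : A →+ A} {H : AddSubgroup A} {b : ℕ} {x y : A} (hx : x ∈ HB φ H b)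
    (hy : y ∈ HB φ H b) : x + y ∈ HB φ H b := by
  obtain ⟨u, hu, v, rfl⟩ := hx
  obtain ⟨u', hu', v', rfl⟩ := hy
  exact ⟨u + u', H.add_mem hu hu', v + v', by rw [iterate_map_add]; abel⟩

theorem HB_sub {φ : A →+ A} {H : AddSubgroup A} {b : ℕ} {x y : A} (hx : x ∈ HB φ H b)
    (hy : y ∈ HB φ H b) : x - y ∈ HB φ H b := by
  obtain ⟨u, hu, v, rfl⟩ := hx
  obtain ⟨u', hu', v', rfl⟩ := hy
  exact ⟨u - u', H.sub_mem hu hu', v - v', by rw [iterate_map_sub]; abel⟩

theorem HB_anti {φ : A →+ A} {H : AddSubgroup A} {b b' : ℕ} (h : b ≤ b') :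
    HB φ H b' ⊆ HB φ H b := by
  rintro x ⟨u, hu, v, rfl⟩
  refine ⟨u, hu, φ^[b' - b] v, ?_⟩
  rw [← Function.iterate_add_apply, Nat.add_sub_cancel' h]

theorem mem_HB_of_mem {φ : A →+ A} {H : AddSubgroup A} {b : ℕ} {x : A} (hx : x ∈ H) :
    x ∈ HB φ H b := ⟨x, hx, 0, by rw [iterate_map_zero, add_zero]⟩

theorem iter_mem {φ : A →+ A} {H : AddSubgroup A} (hH : ∀ x ∈ H, φ x ∈ H) {x : A} (hx : x ∈ H)
    (k : ℕ) : φ^[k] x ∈ H := by
  induction k with
  | zero => exact hx
  | succ k ih => rw [Function.iterate_succ_apply']; exact hH _ ih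

/-- the extension lemma -/
theorem extend {φ : A →+ A} {H : AddSubgroup A} (hA : ∀ r : ℕ, ∃ a, ∃ b, φ^[r] a ∉ HB φ H b)
    (S : A) (b k : ℕ) : ∃ y : A, ∃ d : ℕ, φ^[k] (S + φ^[b] y) ∉ HB φ H (b + d) := by
  by_contra hc
  push Not at hc
  obtain ⟨a, b0, ha⟩ := hA (k + b)
  apply ha
  have h1 := hc a b0
  have h2 := hc 0 b0
  rw [iterate_map_zero, add_zero] at h2
  rw [iterate_map_add] at h1
  have h3 := HB_sub h1 h2
  rw [add_sub_cancel_left, ← Function.iterate_add_apply] at h3
  exact HB_anti (Nat.le_add_left _ _) h3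

section constr

variable (nm : ℕ → ℕ) (add : ℕ → ℕ → ℕ) (f h : ℕ → ℕ)

/-- `w` witnesses `φ^k(S + φ^b y) ∈ H_{b+d}`, `c = (y, d)` -/
def bad (k S b c w : ℕ) : Bool :=
  decide (nm (f^[k] (add S (f^[b] c.unpair.1))) =
    nm (add (h w.unpair.1) (f^[b + c.unpair.2] w.unpair.2)))

/-- the choice at stage `s` -/
def pick (s k S b : ℕ) : ℕ := findN (fun c => allB (fun w => !(bad nm add f h k S b c w)) s) s

/-- the states at stage `s` -/
def st (z s : ℕ) : ℕ → ℕ × ℕ
  | 0 => (z, 0)
  | k + 1 => (add (st z s k).1 (f^[(st z s k).2] (pick nm add f h s k (st z s k).1 (st z s k).2).unpair.1),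
      (st z s k).2 + (pick nm add f h s k (st z s k).1 (st z s k).2).unpair.2)

variable {nm add f h}

theorem c_bad (hnm : Computable nm) (hadd : Computable fun p : ℕ × ℕ => add p.1 p.2)
    (hf : Computable f) (hh : Computable h) :
    Computable fun x : ((ℕ × (ℕ × (ℕ × ℕ))) × ℕ) × ℕ =>
      bad nm add f h x.1.1.2.1 x.1.1.2.2.1 x.1.1.2.2.2 x.1.2 x.2 := by
  unfold bad
  have h1 : Computable fun x : ((ℕ × (ℕ × (ℕ × ℕ))) × ℕ) × ℕ =>
      add x.1.1.2.2.1 (f^[x.1.1.2.2.2] x.1.2.unpair.1) :=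
    hadd.comp (g := fun x : ((ℕ × (ℕ × (ℕ × ℕ))) × ℕ) × ℕ =>
      (x.1.1.2.2.1, f^[x.1.1.2.2.2] x.1.2.unpair.1)) (by fun_prop)
  have h2 : Computable fun x : ((ℕ × (ℕ × (ℕ × ℕ))) × ℕ) × ℕ =>
      add (h x.2.unpair.1) (f^[x.1.1.2.2.2 + x.1.2.unpair.2] x.2.unpair.2) :=
    hadd.comp (g := fun x : ((ℕ × (ℕ × (ℕ × ℕ))) × ℕ) × ℕ =>
      (h x.2.unpair.1, f^[x.1.1.2.2.2 + x.1.2.unpair.2] x.2.unpair.2)) (by fun_prop)
  refine c_eq ?_ ?_
  · exact hnm.comp (c_iter hf (by fun_prop) h1)
  · exact hnm.comp h2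

theorem c_pick (hnm : Computable nm) (hadd : Computable fun p : ℕ × ℕ => add p.1 p.2)
    (hf : Computable f) (hh : Computable h) :
    Computable fun x : ℕ × (ℕ × (ℕ × ℕ)) => pick nm add f h x.1 x.2.1 x.2.2.1 x.2.2.2 := by
  unfold pick
  refine c_findN (f := fun (x : ℕ × (ℕ × (ℕ × ℕ))) c =>
    allB (fun w => !(bad nm add f h x.2.1 x.2.2.1 x.2.2.2 c w)) x.1) ?_ (by fun_prop)
  refine c_allB (f := fun (x : (ℕ × (ℕ × (ℕ × ℕ))) × ℕ) w =>
    !(bad nm add f h x.1.2.1 x.1.2.2.1 x.1.2.2.2 x.2 w)) ?_ (by fun_prop)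
  exact cnot (c_bad hnm hadd hf hh)

theorem c_st (hnm : Computable nm) (hadd : Computable fun p : ℕ × ℕ => add p.1 p.2)
    (hf : Computable f) (hh : Computable h) (z : ℕ) :
    Computable fun s : ℕ => (st nm add f h z s s).1 := by
  have h0 : Computable fun x : ℕ × (ℕ × (ℕ × ℕ)) =>
      pick nm add f h x.1 x.2.1 x.2.2.1 x.2.2.2 := c_pick hnm hadd hf hh
  have h1 : Computable fun x : ℕ × (ℕ × (ℕ × ℕ)) =>
      (add x.2.2.1 (f^[x.2.2.2] (pick nm add f h x.1 x.2.1 x.2.2.1 x.2.2.2).unpair.1),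
        x.2.2.2 + (pick nm add f h x.1 x.2.1 x.2.2.1 x.2.2.2).unpair.2) := by
    refine cpair ?_ (by fun_prop)
    exact hadd.comp (g := fun x : ℕ × (ℕ × (ℕ × ℕ)) =>
      (x.2.2.1, f^[x.2.2.2] (pick nm add f h x.1 x.2.1 x.2.2.1 x.2.2.2).unpair.1)) (by fun_prop)
  have h2 : Computable fun s : ℕ => Nat.rec (motive := fun _ => ℕ × ℕ) (z, 0)
      (fun k v => (add v.1 (f^[v.2] (pick nm add f h s k v.1 v.2).unpair.1),
        v.2 + (pick nm add f h s k v.1 v.2).unpair.2)) s :=
    Computable.nat_rec (h := fun s (v : ℕ × (ℕ × ℕ)) =>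
      (add v.2.1 (f^[v.2.2] (pick nm add f h s v.1 v.2.1 v.2.2).unpair.1),
        v.2.2 + (pick nm add f h s v.1 v.2.1 v.2.2).unpair.2)) (by fun_prop) (by fun_prop) h1
  have h3 : ∀ s k : ℕ, Nat.rec (motive := fun _ => ℕ × ℕ) (z, 0)
      (fun k v => (add v.1 (f^[v.2] (pick nm add f h s k v.1 v.2).unpair.1),
        v.2 + (pick nm add f h s k v.1 v.2).unpair.2)) k = st nm add f h z s k := by
    intro s k
    induction k with
    | zero => rfl
    | succ k ih => rw [st, ← ih]
  exact (Computable.fst.comp h2).of_eq fun s => by rw [h3]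

end constr

/-- **The additive lemma.** -/
theorem lemmaP (e : ℕ → A) (he : Function.Surjective e) (nm : ℕ → ℕ) (hnm : Computable nm)
    (nm_iff : ∀ m n, nm m = nm n ↔ e m = e n) (add : ℕ → ℕ → ℕ)
    (hadd : Computable fun p : ℕ × ℕ => add p.1 p.2) (eadd : ∀ m n, e (add m n) = e m + e n)
    (φ : A →+ A) (f : ℕ → ℕ) (hf : Computable f) (ef : ∀ n, e (f n) = φ (e n))
    (H : AddSubgroup A) (hH : ∀ x ∈ H, φ x ∈ H) (h : ℕ → ℕ) (hh : Computable h)
    (hr : ∀ x, x ∈ H ↔ ∃ n, e (h n) = x) (hN : ∀ k : ℕ, ∃ a, φ^[k] a ∉ H) :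
    ∃ x : ℕ → ℕ, Computable x ∧ ∀ k : ℕ, ∀ᶠ s in atTop, φ^[k] (e (x s)) ∉ H := by
  have efi : ∀ k n, e (f^[k] n) = φ^[k] (e n) := by
    intro k
    induction k with
    | zero => exact fun n => rfl
    | succ k ih =>
      intro n
      rw [Function.iterate_succ_apply', Function.iterate_succ_apply', ef, ih]
  obtain ⟨z, hz⟩ := he 0
  by_cases hB : ∃ r : ℕ, ∀ a b, φ^[r] a ∈ HB φ H b
  · obtain ⟨r, hB⟩ := hB
    obtain ⟨a, ha⟩ := hN r
    obtain ⟨c, rfl⟩ := he a
    have hP : Computable fun x : ℕ × ℕ => decide (nm (f^[r] c) =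
        nm (add (h x.2.unpair.1) (f^[x.1] x.2.unpair.2))) := by
      refine c_eq (by fun_prop) (hnm.comp ?_)
      exact hadd.comp (g := fun x : ℕ × ℕ => (h x.2.unpair.1, f^[x.1] x.2.unpair.2)) (by fun_prop)
    obtain ⟨g, hg, hg'⟩ := search (P := fun b w => decide (nm (f^[r] c) =
        nm (add (h w.unpair.1) (f^[b] w.unpair.2)))) hP (by
      intro b
      obtain ⟨u, hu, v, huv⟩ := hB (e c) b
      obtain ⟨n, rfl⟩ := (hr u).1 hu
      obtain ⟨m, rfl⟩ := he v
      refine ⟨Nat.pair n m, ?_⟩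
      rw [decide_eq_true_iff, nm_iff, eadd, Nat.unpair_pair, efi, efi, huv])
    refine ⟨fun b => (g b).unpair.2, by fun_prop, fun k => ?_⟩
    filter_upwards [eventually_ge_atTop k] with b hb hc
    have h1 := hg' b
    rw [decide_eq_true_iff, nm_iff, eadd, efi, efi] at h1
    apply ha
    rw [h1]
    refine H.add_mem ((hr _).2 ⟨_, rfl⟩) ?_
    have h2 := iter_mem hH hc (b - k)
    rw [← Function.iterate_add_apply, Nat.sub_add_cancel hb] at h2
    exact h2
  · have hA : ∀ r : ℕ, ∃ a, ∃ b, φ^[r] a ∉ HB φ H b := by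
      push Not at hB
      exact hB
    -- membership in `H_b` through witnesses
    have key : ∀ k S b c, (φ^[k] (e S + φ^[b] (e c.unpair.1)) ∈ HB φ H (b + c.unpair.2) ↔
        ∃ w, bad nm add f h k S b c w = true) := by
      intro k S b c
      constructor
      · rintro ⟨u, hu, v, huv⟩
        obtain ⟨n, rfl⟩ := (hr u).1 hu
        obtain ⟨m, rfl⟩ := he v
        refine ⟨Nat.pair n m, ?_⟩
        rw [bad, decide_eq_true_iff, nm_iff, eadd, Nat.unpair_pair, efi, efi, eadd, efi, huv]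
      · rintro ⟨w, hw⟩
        rw [bad, decide_eq_true_iff, nm_iff, eadd, efi, efi, eadd, efi] at hw
        exact ⟨_, (hr _).2 ⟨_, rfl⟩, _, hw.symm⟩
    -- stabilisation
    have stab : ∀ k : ℕ, ∃ S b : ℕ, (∀ᶠ s in atTop, st nm add f h z s k = (S, b)) ∧
        ∀ j, k = j + 1 → φ^[j] (e S) ∉ HB φ H b := by
      intro k
      induction k with
      | zero => exact ⟨z, 0, Eventually.of_forall fun s => rfl, fun j hj => absurd hj (by omega)⟩
      | succ k ih =>
        obtain ⟨S, b, h1, -⟩ := ih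
        have h2 : ∃ c, ∀ w, bad nm add f h k S b c w = false := by
          obtain ⟨y, d, hy⟩ := extend hA (e S) b k
          obtain ⟨n, rfl⟩ := he y
          refine ⟨Nat.pair n d, fun w => ?_⟩
          by_contra hc
          have h3 := (key k S b (Nat.pair n d)).2 ⟨w, by simpa using hc⟩
          rw [Nat.unpair_pair] at h3
          exact hy h3
        classical
        set c := Nat.find h2 with hc
        have hc1 : ∀ w, bad nm add f h k S b c w = false := Nat.find_spec h2
        have hc2 : ∀ i < c, ∃ w, bad nm add f h k S b i w = true := by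
          intro i hi
          have := Nat.find_min h2 hi
          push Not at this
          obtain ⟨w, hw⟩ := this
          exact ⟨w, by simpa using hw⟩
        have hc3 : ∀ᶠ s in atTop, ∀ i < c, ∃ w < s, bad nm add f h k S b i w = true := by
          have : ∀ i ∈ Finset.range c, ∀ᶠ s in atTop, ∃ w < s, bad nm add f h k S b i w = true := by
            intro i hi
            obtain ⟨w, hw⟩ := hc2 i (Finset.mem_range.1 hi)
            filter_upwards [eventually_gt_atTop w] with s hs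
            exact ⟨w, hs, hw⟩
          have h4 := (Filter.eventually_all_finset (Finset.range c)).2 this
          filter_upwards [h4] with s hs i hi
          exact hs i (Finset.mem_range.2 hi)
        refine ⟨add S (f^[b] c.unpair.1), b + c.unpair.2, ?_, ?_⟩
        · filter_upwards [h1, hc3, eventually_gt_atTop c] with s hs1 hs2 hs3
          have h5 : pick nm add f h s k S b = c := by
            refine findN_eq hs3 ?_ ?_
            · rw [allB_iff]
              intro w _
              rw [hc1 w]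
              rfl
            · intro i hi
              obtain ⟨w, hw1, hw2⟩ := hs2 i hi
              by_contra hcon
              rw [Bool.not_eq_false, allB_iff] at hcon
              have := hcon w hw1
              rw [hw2] at this
              exact absurd this (by simp)
          rw [st, hs1]
          simp only [h5]
        · intro j hj
          have hj' : j = k := by omega
          subst hj'
          intro hcon
          rw [eadd, efi] at hcon
          obtain ⟨w, hw⟩ := (key j S b c).1 hcon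
          rw [hc1 w] at hw
          exact absurd hw (by simp)
    -- monotonicity along a stage
    have mono : ∀ s k l, k ≤ l → (st nm add f h z s k).2 ≤ (st nm add f h z s l).2 ∧
        ∃ v, e (st nm add f h z s l).1 =
          e (st nm add f h z s k).1 + φ^[(st nm add f h z s k).2] v := by
      intro s k l hkl
      induction l, hkl using Nat.le_induction with
      | base => exact ⟨le_rfl, 0, by rw [iterate_map_zero, add_zero]⟩
      | succ l hl ih =>
        obtain ⟨ih1, v, ih2⟩ := ih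
        refine ⟨?_, ?_⟩
        · rw [st]
          exact ih1.trans (Nat.le_add_right _ _)
        · rw [st]
          simp only
          obtain ⟨t, ht⟩ := Nat.exists_eq_add_of_le ih1
          refine ⟨v + φ^[t] (e (pick nm add f h s l (st nm add f h z s l).1
            (st nm add f h z s l).2).unpair.1), ?_⟩
          rw [eadd, ih2, iterate_map_add, efi, ← Function.iterate_add_apply, ← ht, add_assoc]
    refine ⟨fun s => (st nm add f h z s s).1, c_st hnm hadd hf hh z, fun k => ?_⟩
    obtain ⟨S, b, h1, h2⟩ := stab (k + 1)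
    filter_upwards [h1, eventually_ge_atTop (k + 1)] with s hs1 hs2 hcon
    apply h2 k rfl
    obtain ⟨-, v, hv⟩ := mono s (k + 1) s hs2
    rw [hs1] at hv
    simp only at hv
    rw [hv, iterate_map_add] at hcon
    have h3 : φ^[k] (e S) = (φ^[k] (e S) + φ^[k] (φ^[b] v)) + φ^[b] (-(φ^[k] v)) := by
      rw [iterate_map_neg, ← Function.iterate_add_apply, ← Function.iterate_add_apply,
        Nat.add_comm k b]
      abel
    exact ⟨_, hcon, _, h3.symm⟩

end Pool.Agent.Q205.CP
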