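import Pool.Agent.Q205.CP.LemP
import Pool.Agent.Q205.CP.Alg

set_option autoImplicit false

/-!
A computable sequence of elements whose degrees tend to infinity.
-/

namespace Pool.Agent.Q205.CP

open Polynomial IntermediateField Filter Pool.Agent.Q205.PKL
open Pool.Agent.Helper446.RE hiding allB allB_iff

/-- a numbering of a field with computable operations and decidable equality -/
structure Num (K : Type) [Field K] where
  e : ℕ → K
  surj : Function.Surjective e
  nm : ℕ → ℕ
  cnm : Computable nm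
  nm_iff : ∀ m n, nm m = nm n ↔ e m = e n
  add : ℕ → ℕ → ℕ
  cadd : Computable fun p : ℕ × ℕ => add p.1 p.2
  eadd : ∀ m n, e (add m n) = e m + e n
  mul : ℕ → ℕ → ℕ
  cmul : Computable fun p : ℕ × ℕ => mul p.1 p.2
  emul : ∀ m n, e (mul m n) = e m * e n

section poly

variable {K : Type} [Field K] (N : Num K) (hF : ℕ → ℕ) (z o : ℕ)

/-- partial sums and powers -/
def pvs (l : List ℕ) (x : ℕ) : ℕ → ℕ × ℕ
  | 0 => (z, o)
  | k + 1 => (N.add (pvs l x k).1 (N.mul (hF (l.getD k 0)) (pvs l x k).2),
      N.mul (pvs l x k).2 x)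

/-- the value at `x` of the polynomial with the list `m` of coefficients -/
def pv (m x : ℕ) : ℕ :=
  (pvs N hF z o (Denumerable.ofNat (List ℕ) m) x (Denumerable.ofNat (List ℕ) m).length).1

variable {N hF z o}

theorem c_pv (hh : Computable hF) : Computable fun p : ℕ × ℕ => pv N hF z o p.1 p.2 := by
  have ha := N.cadd
  have hm := N.cmul
  have h1 : Computable fun x : (ℕ × ℕ) × (ℕ × (ℕ × ℕ)) =>
      N.mul (hF ((Denumerable.ofNat (List ℕ) x.1.1).getD x.2.1 0)) x.2.2.2 :=
    hm.comp (g := fun x : (ℕ × ℕ) × (ℕ × (ℕ × ℕ)) =>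
      (hF ((Denumerable.ofNat (List ℕ) x.1.1).getD x.2.1 0), x.2.2.2)) (by fun_prop)
  have h2 : Computable fun x : (ℕ × ℕ) × (ℕ × (ℕ × ℕ)) =>
      (N.add x.2.2.1 (N.mul (hF ((Denumerable.ofNat (List ℕ) x.1.1).getD x.2.1 0)) x.2.2.2),
        N.mul x.2.2.2 x.1.2) := by
    refine cpair ?_ ?_
    · exact ha.comp (g := fun x : (ℕ × ℕ) × (ℕ × (ℕ × ℕ)) =>
        (x.2.2.1, N.mul (hF ((Denumerable.ofNat (List ℕ) x.1.1).getD x.2.1 0)) x.2.2.2))
        (by fun_prop)
    · exact hm.comp (g := fun x : (ℕ × ℕ) × (ℕ × (ℕ × ℕ)) => (x.2.2.2, x.1.2)) (by fun_prop)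
  have h3 : Computable fun p : ℕ × ℕ => Nat.rec (motive := fun _ => ℕ × ℕ) (z, o)
      (fun k v => (N.add v.1 (N.mul (hF ((Denumerable.ofNat (List ℕ) p.1).getD k 0)) v.2),
        N.mul v.2 p.2)) (Denumerable.ofNat (List ℕ) p.1).length :=
    Computable.nat_rec (h := fun (p : ℕ × ℕ) (v : ℕ × (ℕ × ℕ)) =>
      (N.add v.2.1 (N.mul (hF ((Denumerable.ofNat (List ℕ) p.1).getD v.1 0)) v.2.2),
        N.mul v.2.2 p.2)) (by fun_prop) (by fun_prop) h2
  refine (Computable.fst.comp h3).of_eq fun p => ?_
  unfold pv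
  congr 1
  generalize (Denumerable.ofNat (List ℕ) p.1).length = k
  induction k with
  | zero => rfl
  | succ k ih => rw [pvs, ← ih]

variable {F : Type} [Field F] [Algebra F K] {eF : ℕ → F}

theorem e_pvs (hz : N.e z = 0) (ho : N.e o = 1) (he : ∀ n, N.e (hF n) = algebraMap F K (eF n))
    (l : List ℕ) (x k : ℕ) :
    N.e (pvs N hF z o l x k).1 =
      ∑ i ∈ Finset.range k, algebraMap F K (eF (l.getD i 0)) * N.e x ^ i ∧
    N.e (pvs N hF z o l x k).2 = N.e x ^ k := by
  induction k with
  | zero => exact ⟨by rw [pvs, hz]; simp, by rw [pvs, ho, pow_zero]⟩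
  | succ k ih =>
    rw [pvs]
    refine ⟨?_, ?_⟩
    · show N.e (N.add _ _) = _
      rw [N.eadd, N.emul, ih.1, ih.2, Finset.sum_range_succ, he]
    · show N.e (N.mul _ _) = _
      rw [N.emul, ih.2, pow_succ]

theorem pv_mem (hz : N.e z = 0) (ho : N.e o = 1) (he : ∀ n, N.e (hF n) = algebraMap F K (eF n))
    (m x : ℕ) : N.e (pv N hF z o m x) ∈ Algebra.adjoin F {N.e x} := by
  rw [pv, (e_pvs hz ho he _ _ _).1]
  refine Subalgebra.sum_mem _ fun i _ => Subalgebra.mul_mem _ (Subalgebra.algebraMap_mem _ _) ?_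
  exact Subalgebra.pow_mem _ (Algebra.subset_adjoin (Set.mem_singleton _)) _

theorem exists_pv (hz : N.e z = 0) (ho : N.e o = 1)
    (he : ∀ n, N.e (hF n) = algebraMap F K (eF n)) (hs : Function.Surjective eF) {x : ℕ} {y : K}
    (hy : y ∈ Algebra.adjoin F {N.e x}) : ∃ m, N.e (pv N hF z o m x) = y := by
  rw [Algebra.adjoin_singleton_eq_range_aeval] at hy
  obtain ⟨p, rfl⟩ := hy
  choose g hg using hs
  refine ⟨Encodable.encode ((List.range (p.natDegree + 1)).map fun i => g (p.coeff i)), ?_⟩
  rw [pv, (e_pvs hz ho he _ _ _).1, Denumerable.ofNat_encode]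
  show _ = aeval (N.e x) p
  rw [aeval_eq_sum_range, List.length_map, List.length_range]
  refine Finset.sum_congr rfl fun i hi => ?_
  rw [Finset.mem_range] at hi
  rw [List.getD_eq_getElem _ _ (by rw [List.length_map, List.length_range]; exact hi),
    List.getElem_map, List.getElem_range, hg, Algebra.smul_def]

end poly

section seq

variable {K : Type} [Field K] (N : Num K) {F : Type} [Field F] [Algebra F K]

theorem exists_pw (k : ℕ) : ∃ f : ℕ → ℕ, Computable f ∧ ∀ x, N.e (f x) = N.e x ^ k := by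
  induction k with
  | zero =>
    obtain ⟨o, ho⟩ := N.surj 1
    exact ⟨fun _ => o, by fun_prop, fun x => by rw [pow_zero, ho]⟩
  | succ k ih =>
    obtain ⟨f, hf, hf'⟩ := ih
    refine ⟨fun x => N.mul (f x) x, N.cmul.comp (g := fun x : ℕ => (f x, x)) (by fun_prop),
      fun x => ?_⟩
    rw [N.emul, hf', pow_succ]

/-- **A computable sequence whose degrees tend to infinity.** -/
theorem exists_seq (eF : ℕ → F) (hs : Function.Surjective eF) (hF : ℕ → ℕ)
    (hh : Computable hF) (he : ∀ n, N.e (hF n) = algebraMap F K (eF n))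
    (hunb : ∀ n : ℕ, ∃ x : K, ¬ DegLe F n x) :
    ∃ x : ℕ → ℕ, Computable x ∧ ∀ n : ℕ, ∀ᶠ s in atTop, ¬ DegLe F n (N.e (x s)) := by
  classical
  by_cases halg : ∀ x : K, IsIntegral F x
  swap
  · push Not at halg
    obtain ⟨x, hx⟩ := halg
    obtain ⟨c, rfl⟩ := N.surj x
    exact ⟨fun _ => c, by fun_prop, fun n => Eventually.of_forall fun s hc => hx hc.isIntegral⟩
  obtain ⟨z, hz⟩ := N.surj 0
  obtain ⟨o, ho⟩ := N.surj 1
  obtain ⟨q, hq⟩ := ExpChar.exists F
  have hqK : ExpChar K q := expChar_of_injective_algebraMap (algebraMap F K).injective q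
  obtain ⟨pw, cpw, epw⟩ := exists_pw N q
  have hq0 : 0 < q := expChar_pos F q
  have hcnm := N.cnm
  have hcpv : Computable fun p : ℕ × ℕ => pv N hF z o p.1 p.2 := c_pv hh
  -- the enumeration of the separable elements
  set tst : ℕ → Bool := fun n =>
    decide (N.nm (pv N hF z o n.unpair.1 (pw n.unpair.2)) = N.nm n.unpair.2) with htst
  have ctst : Computable tst := by
    refine c_eq (N.cnm.comp ?_) (N.cnm.comp (by fun_prop))
    exact hcpv.comp (g := fun n : ℕ => (n.unpair.1, pw n.unpair.2)) (by fun_prop)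
  set al : ℕ → ℕ := fun n => bif tst n then n.unpair.2 else z with hal
  have cal : Computable al := by
    rw [hal]
    fun_prop
  have al_sep : ∀ n, IsSeparable F (N.e (al n)) := by
    intro n
    rw [hal]
    simp only
    cases h : tst n
    · simp only [cond_false]
      rw [hz, ← mem_separableClosure_iff]
      exact zero_mem _
    · simp only [cond_true]
      rw [htst, decide_eq_true_iff, N.nm_iff] at h
      rw [sep_iff q (halg _)]
      have h5 := pv_mem (F := F) hz ho he n.unpair.1 (pw n.unpair.2)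
      rw [h, epw] at h5
      exact h5
  have sep_al : ∀ x : K, IsSeparable F x → ∃ n, N.e (al n) = x := by
    intro x hx
    obtain ⟨c, rfl⟩ := N.surj x
    rw [sep_iff q (halg _), ← epw] at hx
    obtain ⟨m, hm⟩ := exists_pv hz ho he hs hx
    refine ⟨Nat.pair m c, ?_⟩
    have h1 : tst (Nat.pair m c) = true := by
      rw [htst, decide_eq_true_iff, N.nm_iff, Nat.unpair_pair, hm]
    rw [hal]
    simp only [h1, cond_true, Nat.unpair_pair]
  by_cases hcase : ∃ M : ℕ, ∀ x : K, IsSeparable F (x ^ q ^ M)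
  · -- the degrees of the separable elements are unbounded
    obtain ⟨M, hM⟩ := hcase
    have hunb' : ∀ n : ℕ, ∃ i, ¬ DegLe F n (N.e (al i)) := by
      intro n
      obtain ⟨x, hx⟩ := hunb (n * q ^ M)
      obtain ⟨i, hi⟩ := sep_al _ (hM x)
      refine ⟨i, fun hc => hx ?_⟩
      rw [hi] at hc
      exact hc.pow (pow_pos hq0 M)
    -- the search for primitive elements
    have hP : Computable fun x : ℕ × ℕ => allB (fun i => decide (N.nm (pv N hF z o
        ((Denumerable.ofNat (List ℕ) x.2.unpair.2).getD i 0) x.2.unpair.1) = N.nm (al i)))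
        (x.1 + 1) := by
      refine c_allB (f := fun (x : ℕ × ℕ) i => decide (N.nm (pv N hF z o
        ((Denumerable.ofNat (List ℕ) x.2.unpair.2).getD i 0) x.2.unpair.1) = N.nm (al i)))
        (n := fun x => x.1 + 1) ?_ (by fun_prop)
      refine c_eq (N.cnm.comp ?_) (N.cnm.comp (by fun_prop))
      exact hcpv.comp (g := fun x : (ℕ × ℕ) × ℕ =>
        ((Denumerable.ofNat (List ℕ) x.1.2.unpair.2).getD x.2 0, x.1.2.unpair.1)) (by fun_prop)
    obtain ⟨g, hg, hg'⟩ := search (P := fun j w => allB (fun i => decide (N.nm (pv N hF z o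
        ((Denumerable.ofNat (List ℕ) w.unpair.2).getD i 0) w.unpair.1) = N.nm (al i)))
        (j + 1)) hP (by
      intro j
      obtain ⟨y, hy⟩ := exists_prim (F := F) (a := fun i => N.e (al i)) j fun i _ => al_sep i
      obtain ⟨c, rfl⟩ := N.surj y
      have h1 : ∀ i : ℕ, ∃ m, i ≤ j → N.e (pv N hF z o m c) = N.e (al i) := by
        intro i
        by_cases hi : i ≤ j
        · obtain ⟨m, hm⟩ := exists_pv hz ho he hs (hy i hi)
          exact ⟨m, fun _ => hm⟩
        · exact ⟨0, fun h => absurd h hi⟩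
      choose m hm using h1
      refine ⟨Nat.pair c (Encodable.encode ((List.range (j + 1)).map m)), ?_⟩
      rw [allB_iff]
      intro i hi
      rw [decide_eq_true_iff, N.nm_iff, Nat.unpair_pair, Denumerable.ofNat_encode,
        List.getD_eq_getElem _ _ (by rw [List.length_map, List.length_range]; exact hi),
        List.getElem_map, List.getElem_range]
      exact hm i (by omega))
    refine ⟨fun j => (g j).unpair.1, by fun_prop, fun n => ?_⟩
    obtain ⟨i, hi⟩ := hunb' n
    filter_upwards [eventually_ge_atTop i] with j hj hc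
    apply hi
    have h2 := hg' j
    rw [allB_iff] at h2
    have h3 := h2 i (by omega)
    rw [decide_eq_true_iff, N.nm_iff] at h3
    refine hc.of_mem ?_
    rw [← h3]
    exact pv_mem hz ho he _ _
  · push Not at hcase
    let H : AddSubgroup K :=
      { carrier := {x | IsSeparable F x}
        zero_mem' := by
          show IsSeparable F (0 : K)
          rw [← mem_separableClosure_iff]
          exact zero_mem _
        add_mem' := by
          intro a b ha hb
          simp only [Set.mem_ofPred_eq, ← mem_separableClosure_iff] at ha hb ⊢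
          exact add_mem ha hb
        neg_mem' := by
          intro a ha
          simp only [Set.mem_ofPred_eq, ← mem_separableClosure_iff] at ha ⊢
          exact neg_mem ha }
    have memH : ∀ x : K, x ∈ H ↔ IsSeparable F x := fun x => Iff.rfl
    have hφ : ∀ (k : ℕ) (x : K), (frobenius K q : K →+ K)^[k] x = x ^ q ^ k := fun k x =>
      iterate_frobenius q k x
    obtain ⟨x, hx, hx'⟩ := lemmaP N.e N.surj N.nm N.cnm N.nm_iff N.add N.cadd N.eadd
      (frobenius K q : K →+ K) pw cpw (fun n => by rw [epw]; rfl) H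
      (fun x hx => by
        rw [memH, ← mem_separableClosure_iff] at hx ⊢
        exact pow_mem hx q) al cal
      (fun x => ⟨fun h => sep_al x h, fun ⟨n, hn⟩ => by rw [← hn]; exact al_sep n⟩)
      (fun k => by
        obtain ⟨a, ha⟩ := hcase k
        exact ⟨a, by rw [hφ, memH]; exact ha⟩)
    refine ⟨x, hx, fun n => ?_⟩
    filter_upwards [hx' n] with s hs hc
    apply hs
    rw [hφ, memH]
    exact sep_pow q n _ hc

end seq

end Pool.Agent.Q205.CP
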