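import Pool.Agent.Q205.CP.Defs
import Pool.Agent.Q205.CP.Seq

set_option autoImplicit false

/-!
# Cohesive powers of computable fields: the proofs
-/

namespace Pool.Agent.Q205.CP

open Polynomial IntermediateField Filter Pool.Agent.Q205.PKL
open Pool.Agent.Helper446.RE hiding allB allB_iff

theorem ae_iff {C : Set ℕ} {p : ℕ → Prop} : (∀ᶠ n in ae C, p n) ↔ (C \ {n | p n}).Finite := by
  rw [ae, eventually_inf_principal, Filter.eventually_cofinite]
  have : {n | ¬ (n ∈ C → p n)} = C \ {n | p n} := by
    ext n
    simp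
  rw [this]

theorem ae_neBot {C : Set ℕ} (hC : C.Infinite) : (ae C).NeBot := by
  rw [Filter.neBot_iff]
  intro h
  have : ∀ᶠ n in ae C, False := by rw [h]; exact Filter.eventually_bot
  rw [ae_iff] at this
  apply hC
  simpa using this

theorem ae_atTop {C : Set ℕ} {p : ℕ → Prop} (h : ∀ᶠ n in atTop, p n) : ∀ᶠ n in ae C, p n := by
  have h1 : ae C ≤ cofinite := inf_le_left
  rw [← Nat.cofinite_eq_atTop] at h
  exact h1 h

/-- the numbering of a computable field -/
theorem exists_num {A : Type} [Field A] (P : CompField A) :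
    ∃ N : Num A, (∀ n, P.code (N.e n) = N.nm n) ∧ ∀ x, N.e (P.code x) = x := by
  classical
  obtain ⟨D, hD, hD'⟩ := ComputablePred.computable_iff.1 P.dom
  have hD2 : ∀ n, (D n = true ↔ ∃ x, P.code x = n) := fun n => by
    have h : (∃ x, P.code x = n) = (D n = true) := congrFun hD' n
    rw [h]
  obtain ⟨fa, hfa, hfa'⟩ := P.add
  obtain ⟨fm, hfm, hfm'⟩ := P.mul
  set e : ℕ → A := fun n => if h : ∃ x, P.code x = n then h.choose else 0 with he
  have ecode : ∀ x, e (P.code x) = x := by
    intro x
    have h : ∃ y, P.code y = P.code x := ⟨x, rfl⟩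
    rw [he]
    simp only [dif_pos h]
    exact P.inj h.choose_spec
  set nm : ℕ → ℕ := fun n => bif D n then n else P.code 0 with hnm
  have cnm : Computable nm := by
    rw [hnm]
    fun_prop
  have codee : ∀ n, P.code (e n) = nm n := by
    intro n
    by_cases h : ∃ x, P.code x = n
    · have h1 : D n = true := (hD2 n).2 h
      obtain ⟨x, rfl⟩ := h
      rw [ecode, hnm]
      simp only [h1, cond_true]
    · have h1 : D n = false := by
        by_contra hc
        exact h ((hD2 n).1 (by simpa using hc))
      rw [he, hnm]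
      simp only [dif_neg h, h1, cond_false]
  refine ⟨{ e := e
            surj := fun x => ⟨P.code x, ecode x⟩
            nm := nm
            cnm := cnm
            nm_iff := fun m n => by rw [← codee, ← codee, P.inj.eq_iff]
            add := fun m n => fa (nm m, nm n)
            cadd := by
              show Computable fun p : ℕ × ℕ => fa (nm p.1, nm p.2)
              fun_prop
            eadd := fun m n => by rw [← codee, ← codee, hfa', ecode]
            mul := fun m n => fm (nm m, nm n)
            cmul := by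
              show Computable fun p : ℕ × ℕ => fm (nm p.1, nm p.2)
              fun_prop
            emul := fun m n => by rw [← codee, ← codee, hfm', ecode] }, codee, ecode⟩

/-- a cohesive power is a field -/
theorem isField_power {A : Type} [Field A] (P : CompField A) {C : Set ℕ} (hC : Cohesive C) :
    IsField (Power P C) := by
  have hne := ae_neBot hC.1
  refine ⟨⟨0, 1, ?_⟩, fun a b => mul_comm a b, ?_⟩
  · intro h
    have h1 : ((fun _ => (0 : A) : ℕ → A) : (ae C).Germ A) = ((fun _ => (1 : A) : ℕ → A)) :=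
      congrArg Subtype.val h
    rw [Germ.coe_eq] at h1
    obtain ⟨i, hi⟩ := h1.exists
    exact zero_ne_one hi
  · rintro ⟨_, f, ⟨φ, hφ, hf⟩, rfl⟩ ha
    obtain ⟨N, hN1, hN2⟩ := exists_num P
    obtain ⟨o, ho⟩ := N.surj 1
    have hcmul := N.cmul
    have hcnm := N.cnm
    set c0 := P.code 0 with hc0
    have hRE : REPred fun i : ℕ => ∃ n ∈ φ i, n ≠ c0 := by
      have h1 : Partrec fun i : ℕ => (φ i).bind fun n =>
          Part.ofOption ((bif decide (n = c0) then none else some ()) : Option Unit) := by
        refine Partrec.bind hφ ?_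
        have h2 : Computable fun x : ℕ × ℕ =>
            ((bif decide (x.2 = c0) then none else some ()) : Option Unit) := by
          refine ccond (c_eq (by fun_prop) (by fun_prop)) (by fun_prop) (by fun_prop)
        exact (Computable.ofOption h2).to₂
      refine (Partrec.dom_re h1).of_eq fun i => ?_
      rw [Part.dom_iff_mem]
      constructor
      · rintro ⟨u, hu⟩
        rw [Part.mem_bind_iff] at hu
        obtain ⟨n, hn, hu⟩ := hu
        refine ⟨n, hn, fun hc => ?_⟩
        rw [hc] at hu
        simp at hu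
      · rintro ⟨n, hn, hnc⟩
        refine ⟨(), Part.mem_bind hn ?_⟩
        have : decide (n = c0) = false := by simpa using hnc
        rw [this]
        simp
    have hnz : ∀ᶠ i in ae C, f i ≠ 0 := by
      rcases hC.2 _ hRE with h | h
      · rw [← ae_iff] at h
        filter_upwards [h, hf] with i hi hi2 hc
        obtain ⟨n, hn, hn2⟩ := hi
        rw [hc] at hi2
        exact hn2 (Part.mem_unique hn hi2)
      · exfalso
        apply ha
        apply Subtype.ext
        show (f : (ae C).Germ A) = ((fun _ => (0 : A) : ℕ → A) : (ae C).Germ A)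
        rw [Germ.coe_eq]
        have h2 : ∀ᶠ i in ae C, ¬ ∃ n ∈ φ i, n ≠ c0 := by
          rw [ae_iff]
          refine h.subset fun i hi => ⟨hi.1, ?_⟩
          have := hi.2
          simpa using this
        filter_upwards [h2, hf] with i hi hi2
        by_contra hc
        exact hi ⟨_, hi2, fun h => hc (P.inj h)⟩
    have hinv : Partrec fun n : ℕ => (Nat.rfind (fun m =>
        (Part.some (decide (N.nm (N.mul n m) = N.nm o)) : Part Bool))).map N.nm := by
      have h1 : Partrec fun n : ℕ => Nat.rfind (fun m =>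
          (Part.some (decide (N.nm (N.mul n m) = N.nm o)) : Part Bool)) := by
        refine Partrec.rfind (Computable₂.partrec₂ (Computable₂.mk ?_))
        refine c_eq (N.cnm.comp ?_) (by fun_prop)
        exact hcmul.comp (g := fun x : ℕ × ℕ => (x.1, x.2)) (by fun_prop)
      exact h1.map (hcnm.comp Computable.snd).to₂
    refine ⟨⟨_, fun i => (f i)⁻¹, ⟨fun i => (φ i).bind fun n => (Nat.rfind (fun m =>
        (Part.some (decide (N.nm (N.mul n m) = N.nm o)) : Part Bool))).map N.nm, ?_, ?_⟩, rfl⟩, ?_⟩
    · exact Partrec.bind hφ (hinv.comp Computable.snd).to₂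
    · filter_upwards [hnz, hf] with i hi hi2
      refine Part.mem_bind hi2 ?_
      have h1 : (fun m => decide (N.nm (N.mul (P.code (f i)) m) = N.nm o)) (P.code (f i)⁻¹) =
          true := by
        simp only
        rw [decide_eq_true_iff, N.nm_iff, N.emul, hN2, hN2, ho]
        exact mul_inv_cancel₀ hi
      obtain ⟨m, hm, -⟩ := Nat.rfind_min'
        (p := fun m => decide (N.nm (N.mul (P.code (f i)) m) = N.nm o)) h1
      have h2 := Nat.rfind_spec hm
      have h3 : decide (N.nm (N.mul (P.code (f i)) m) = N.nm o) = true := by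
        rw [PFun.coe_val, Part.mem_some_iff] at h2
        exact h2.symm
      rw [decide_eq_true_iff, N.nm_iff, N.emul, hN2, ho] at h3
      rw [← eq_inv_of_mul_eq_one_right h3, hN1]
      exact Part.mem_map _ hm
    · apply Subtype.ext
      show ((fun i => f i * (f i)⁻¹ : ℕ → A) : (ae C).Germ A) =
        ((fun _ => (1 : A) : ℕ → A) : (ae C).Germ A)
      rw [Germ.coe_eq]
      filter_upwards [hnz] with i hi
      exact mul_inv_cancel₀ hi

theorem lt_rank {F K : Type} [Field F] [Field K] [Algebra F K] {n : ℕ} {x : K}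
    (h : ¬ DegLe F n x) : (n : Cardinal) < Module.rank F F⟮x⟯ := by
  by_contra hc
  rw [not_lt] at hc
  have h1 : Module.Finite F F⟮x⟯ :=
    Module.rank_lt_aleph0_iff.1 (hc.trans_lt Cardinal.natCast_lt_aleph0)
  have hi : IsIntegral F x := by
    have := Algebra.IsIntegral.isIntegral (R := F) (⟨x, mem_adjoin_simple_self F x⟩ : F⟮x⟯)
    exact this.map (F⟮x⟯.val)
  apply h
  rw [degLe_iff hi, ← adjoin.finrank hi]
  rw [← Module.finrank_eq_rank] at hc
  exact Nat.cast_le.1 hc

/-- **Transcendence.** -/
theorem main {F K : Type} [Field F] [Field K] [Algebra F K] (P : CompField F) (Q : CompField K)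
    (h : CompEmb P Q) (hunb : ∀ n : ℕ, ∃ x : K, (n : Cardinal) < Module.rank F F⟮x⟯) :
    ∃ x : ℕ → K, (Computable fun i => Q.code (x i)) ∧
      (∀ n : ℕ, ∀ᶠ i in atTop, (n : Cardinal) < Module.rank F F⟮x i⟯) ∧
      ∀ C : Set ℕ, C.Infinite → ∃ y : Power Q C, y.1 = (x : (ae C).Germ K) ∧
        ∀ p : (Power P C)[X], p ≠ 0 → p.eval₂ (powerMap h C) y ≠ 0 := by
  obtain ⟨N, hN1, hN2⟩ := exists_num Q
  obtain ⟨M, hM1, hM2⟩ := exists_num P
  obtain ⟨G, hG, hG'⟩ := h
  have hcnm := M.cnm
  have he : ∀ n, N.e (G (M.nm n)) = algebraMap F K (M.e n) := by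
    intro n
    rw [← hM1, hG', hN2]
  obtain ⟨x, hx, hx'⟩ := exists_seq N M.e M.surj (fun n => G (M.nm n)) (by fun_prop) he
    (unbounded_of_rank hunb)
  have hcN := N.cnm
  have hcx : Computable fun i => Q.code (N.e (x i)) := by
    simp only [hN1]
    fun_prop
  refine ⟨fun i => N.e (x i), hcx, fun n => ?_, fun C hC => ?_⟩
  · filter_upwards [hx' n] with i hi
    exact lt_rank hi
  have hne := ae_neBot hC
  have hpc : IsPC Q C fun i => N.e (x i) :=
    ⟨fun i => Part.some (Q.code (N.e (x i))), hcx,
      Eventually.of_forall fun i => Part.mem_some _⟩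
  refine ⟨⟨_, _, hpc, rfl⟩, rfl, fun p hp hev => ?_⟩
  have hco : ∀ j, ∃ c : ℕ → F, IsPC P C c ∧ (c : (ae C).Germ F) = (p.coeff j).1 :=
    fun j => (p.coeff j).2
  choose c hc hc' using hco
  set n := p.natDegree with hn
  -- the relation
  have hrel : ∀ᶠ i in ae C, ∑ j ∈ Finset.range (n + 1),
      algebraMap F K (c j i) * (N.e (x i)) ^ j = 0 := by
    rw [eval₂_eq_sum_range] at hev
    have h1 := congrArg (Subring.subtype (Power Q C)) hev
    rw [map_sum, map_zero] at h1
    have h2 : ((fun i => ∑ j ∈ Finset.range (n + 1),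
        algebraMap F K (c j i) * (N.e (x i)) ^ j : ℕ → K) : (ae C).Germ K) =
        ((fun _ => 0 : ℕ → K) : (ae C).Germ K) := by
      have h3 : (fun i => ∑ j ∈ Finset.range (n + 1),
          algebraMap F K (c j i) * (N.e (x i)) ^ j : ℕ → K) =
          ∑ j ∈ Finset.range (n + 1), (fun i => algebraMap F K (c j i)) *
            (fun i => N.e (x i)) ^ j := by
        funext i
        rw [Finset.sum_apply]
        rfl
      rw [h3]
      show Germ.coeRingHom (ae C) _ = _
      rw [map_sum]
      refine Eq.trans (Finset.sum_congr rfl fun j _ => ?_) h1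
      rw [map_mul, map_mul, map_pow, map_pow]
      congr 1
      show ((fun i => algebraMap F K (c j i) : ℕ → K) : (ae C).Germ K) =
        Germ.map (algebraMap F K) (p.coeff j).1
      rw [← hc' j]
      rfl
    exact Germ.coe_eq.1 h2
  have hlead : ∃ᶠ i in ae C, c n i ≠ 0 := by
    intro hcon
    apply hp
    rw [← leadingCoeff_eq_zero, leadingCoeff, ← hn]
    apply Subtype.ext
    rw [← hc' n]
    show _ = ((fun _ => (0 : F) : ℕ → F) : (ae C).Germ F)
    rw [Germ.coe_eq]
    filter_upwards [hcon] with i hi
    simpa using hi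
  obtain ⟨i, hi1, hi2, hi3⟩ := (hlead.and_eventually (hrel.and (ae_atTop (hx' n)))).exists
  apply hi3
  refine ⟨∑ j ∈ Finset.range (n + 1), Polynomial.C (c j i) * X ^ j, ?_, ?_, ?_⟩
  · intro hz
    have h4 := congrArg (fun r => coeff r n) hz
    simp only [finsetSum_coeff, coeff_C_mul, coeff_X_pow, coeff_zero, mul_ite, mul_one,
      mul_zero, Finset.sum_ite_eq, Finset.mem_range, Nat.lt_succ_self, if_true] at h4
    exact hi1 h4
  · refine natDegree_sum_le_of_forall_le _ _ fun j hj => ?_
    refine (natDegree_C_mul_X_pow_le _ _).trans ?_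
    have := Finset.mem_range.1 hj
    omega
  · rw [map_sum]
    simp only [map_mul, aeval_C, map_pow, aeval_X]
    exact hi2

end Pool.Agent.Q205.CP
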