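import Pool.Agent.Q205.CP.Chk
import Pool.Agent.Q205.CP.Seq

set_option autoImplicit false

/-!
Two computable sequences of elements without relations of small degree.
-/

namespace Pool.Agent.Q205.CP

open Polynomial IntermediateField Filter Pool.Agent.Q205.PKL
open Pool.Agent.Helper446.RE hiding allB allB_iff

/-- a numbered field is a numbered ring -/
def Num.toR {K : Type} [Field K] (N : Num K) (z o : ℕ) (hz : N.e z = 0) (ho : N.e o = 1) :
    RNum K where
  e := N.e
  add := N.add
  cadd := N.cadd
  eadd := N.eadd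
  mul := N.mul
  cmul := N.cmul
  emul := N.emul
  eqb m n := decide (N.nm m = N.nm n)
  ceqb := by
    have := N.cnm
    fun_prop
  eqb_iff m n := by rw [decide_eq_true_iff, N.nm_iff]
  z := z
  ez := hz
  o := o
  eo := ho

variable {F K : Type} [Field F] [Field K] [Algebra F K]

/-- the pairs have no relations of small degree -/
def Indep (F : Type) {K : Type} [Field F] [Field K] [Algebra F K] (x y : ℕ → K) : Prop :=
  ∀ n : ℕ, ∀ᶠ i in atTop, ∀ c : ℕ → F,
    (∑ t ∈ Finset.range (n * n), algebraMap F K (c t) * (x i ^ (t % n) * y i ^ (t / n)) = 0) →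
      ∀ t < n * n, c t = 0

/-- powers of elements of large degree -/
theorem indep_pow {x : ℕ → K} (hx : ∀ i, ¬ DegLe F ((i + 1) * (i + 1)) (x i)) :
    Indep F x fun i => x i ^ (i + 1) := by
  classical
  intro n
  filter_upwards [eventually_ge_atTop n] with i hi c hc t ht
  have hn : 0 < n := by
    rcases Nat.eq_zero_or_pos n with h0 | h0
    · subst h0
      omega
    · exact h0
  set p : F[X] := ∑ t ∈ Finset.range (n * n), C (c t) * X ^ (t % n + (i + 1) * (t / n)) with hp
  have hdiv : ∀ s < n * n, s / n < n := fun s hs => by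
    rw [Nat.div_lt_iff_lt_mul hn]
    exact hs
  have hpd : p.natDegree ≤ (i + 1) * (i + 1) := by
    refine natDegree_sum_le_of_forall_le _ _ fun s hs => ?_
    refine (natDegree_C_mul_X_pow_le _ _).trans ?_
    have h1 := Nat.mod_lt s hn
    have h2 := hdiv s (Finset.mem_range.1 hs)
    have h3 : (i + 1) * (s / n) ≤ (i + 1) * i := Nat.mul_le_mul_left _ (by omega)
    nlinarith
  have hpa : aeval (x i) p = 0 := by
    rw [hp, map_sum, ← hc]
    refine Finset.sum_congr rfl fun s _ => ?_
    rw [map_mul, aeval_C, map_pow, aeval_X, ← pow_mul, ← pow_add]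
  have hp0 : p = 0 := by
    by_contra h0
    exact hx i ⟨p, h0, hpd, hpa⟩
  have h4 : p.coeff (t % n + (i + 1) * (t / n)) = c t := by
    rw [hp, finsetSum_coeff]
    simp only [coeff_C_mul, coeff_X_pow, mul_ite, mul_one, mul_zero]
    rw [Finset.sum_eq_single t]
    · rw [if_pos rfl]
    · intro s _ hst
      rw [if_neg]
      intro he
      apply hst
      have h5 : (t % n + (i + 1) * (t / n)) % (i + 1) = t % n := by
        rw [Nat.add_mul_mod_self_left, Nat.mod_eq_of_lt]
        have := Nat.mod_lt t hn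
        omega
      have h6 : (s % n + (i + 1) * (s / n)) % (i + 1) = s % n := by
        rw [Nat.add_mul_mod_self_left, Nat.mod_eq_of_lt]
        have := Nat.mod_lt s hn
        omega
      have h7 : s % n = t % n := by rw [← h5, ← h6, he]
      have h8 : s / n = t / n := by
        rw [h7] at he
        have := Nat.add_left_cancel he
        exact (Nat.eq_of_mul_eq_mul_left (Nat.succ_pos i) this).symm
      rw [← Nat.div_add_mod s n, ← Nat.div_add_mod t n, h7, h8]
    · intro h
      exact absurd (Finset.mem_range.2 ht) h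
  rw [← h4, hp0, coeff_zero]

/-- soundness of the certificates -/
theorem indep_cert {x : K} {n : ℕ} {M f : F[X]} (hC : Cert n M f) (hM : aeval x M = 0)
    (hsep : IsSeparable F x) (hdeg : ¬ DegLe F (n * n) x) {c : ℕ → F}
    (hc : ∑ t ∈ Finset.range (n * n), algebraMap F K (c t) *
      (x ^ (t % n) * (aeval x f) ^ (t / n)) = 0) : ∀ t < n * n, c t = 0 := by
  classical
  have hxi : IsIntegral F x := hsep.isIntegral
  rw [degLe_iff hxi, not_le] at hdeg
  set μ := minpoly F x with hμ
  have hcard : Fintype.card (μ.rootSet (AlgebraicClosure F)) = μ.natDegree :=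
    card_rootSet_eq_natDegree hsep (IsAlgClosed.splits _)
  have h1 : Nonempty (Fin (n * n) ↪ μ.rootSet (AlgebraicClosure F)) := by
    refine Function.Embedding.nonempty_of_card_le ?_
    rw [Fintype.card_fin, hcard]
    exact hdeg.le
  obtain ⟨r⟩ := h1
  set ρ : ℕ → AlgebraicClosure F := fun j => if h : j < n * n then (r ⟨j, h⟩ : AlgebraicClosure F)
    else 0 with hρ
  have hroot : ∀ j < n * n, ∀ g : F[X], aeval x g = 0 → aeval (ρ j) g = 0 := by
    intro j hj g hg
    obtain ⟨g', rfl⟩ := minpoly.dvd F x hg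
    rw [map_mul]
    have h2 : aeval (ρ j) μ = 0 := by
      rw [hρ]
      simp only [dif_pos hj]
      exact (mem_rootSet.1 (r ⟨j, hj⟩).2).2
    rw [h2, zero_mul]
  have hinj : ∀ i < n * n, ∀ j < n * n, ρ i = ρ j → i = j := by
    intro i hi j hj hij
    rw [hρ] at hij
    simp only [dif_pos hi, dif_pos hj] at hij
    have := r.injective (Subtype.ext hij)
    simpa using this
  have key := hC.sound hinj (fun j hj => hroot j hj M hM)
    (c := fun t => algebraMap F (AlgebraicClosure F) (c t)) (by
      intro j hj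
      have h3 := hroot j hj (∑ t ∈ Finset.range (n * n), C (c t) * (X ^ (t % n) * f ^ (t / n)))
        (by
          rw [← hc, map_sum]
          refine Finset.sum_congr rfl fun t _ => ?_
          rw [map_mul, aeval_C, map_mul, map_pow, map_pow, aeval_X])
      rw [← h3, map_sum]
      refine Finset.sum_congr rfl fun t _ => ?_
      rw [map_mul, aeval_C, map_mul, map_pow, map_pow, aeval_X])
  intro t ht
  exact (map_eq_zero _).1 (key t ht)

/-- **Two computable sequences without relations of small degree.** -/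
theorem exists_pair (N : Num K) (M : Num F) (hF : ℕ → ℕ) (hh : Computable hF)
    (he : ∀ n, N.e (hF n) = algebraMap F K (M.e n))
    (hsep : ∀ x : K, IsIntegral F x → IsSeparable F x)
    (hunb : ∀ n : ℕ, ∃ x : K, ¬ DegLe F n x) :
    ∃ x y : ℕ → ℕ, Computable x ∧ Computable y ∧
      Indep F (fun i => N.e (x i)) (fun i => N.e (y i)) := by
  classical
  obtain ⟨z, hz⟩ := N.surj 0
  obtain ⟨o, ho⟩ := N.surj 1
  set R : RNum K := N.toR z o hz ho with hR
  -- reduction to elements of large degree
  have hlarge : (∃ x : ℕ → ℕ, Computable x ∧ ∀ i, ¬ DegLe F ((i + 1) * (i + 1)) (N.e (x i))) →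
      ∃ x y : ℕ → ℕ, Computable x ∧ Computable y ∧
        Indep F (fun i => N.e (x i)) (fun i => N.e (y i)) := by
    rintro ⟨x, hx, hx'⟩
    refine ⟨x, fun i => R.pow (x i) (i + 1), hx, R.c_pow hx (by fun_prop), ?_⟩
    have h1 : (fun i => N.e (R.pow (x i) (i + 1))) = fun i => N.e (x i) ^ (i + 1) := by
      funext i
      exact R.e_pow (x i) (i + 1)
    rw [h1]
    exact indep_pow hx'
  by_cases halg : ∀ x : K, IsIntegral F x
  swap
  · push Not at halg
    obtain ⟨x, hx⟩ := halg
    obtain ⟨c, rfl⟩ := N.surj x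
    exact hlarge ⟨fun _ => c, by fun_prop, fun i hc => hx hc.isIntegral⟩
  rcases finite_or_infinite F with hfin | hinf
  · -- finite base field
    have : Fintype F := Fintype.ofFinite F
    set q := Fintype.card F with hq
    have hq1 : 1 < q := Fintype.one_lt_card
    obtain ⟨pw, cpw, epw⟩ := exists_pw N q
    have epi : ∀ d x, N.e (pw^[d] x) = N.e x ^ q ^ d := by
      intro d
      induction d with
      | zero => exact fun x => by rw [Function.iterate_zero_apply, pow_zero, pow_one]
      | succ d ih =>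
        intro x
        rw [Function.iterate_succ_apply', epw, ih, ← pow_mul, pow_succ]
    have hP : Computable fun x : ℕ × ℕ => allB (fun d => !(R.eqb (pw^[d + 1] x.2) x.2))
        ((x.1 + 1) * (x.1 + 1)) := by
      refine c_allB (f := fun (x : ℕ × ℕ) d => !(R.eqb (pw^[d + 1] x.2) x.2)) ?_ (by fun_prop)
      exact cnot (R.c_eqb (c_iter cpw (by fun_prop) (by fun_prop)) (by fun_prop))
    obtain ⟨g, hg, hg'⟩ := search (P := fun i x => allB (fun d => !(R.eqb (pw^[d + 1] x) x))
      ((i + 1) * (i + 1))) hP (by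
      intro i
      obtain ⟨x, hx⟩ := hunb (q ^ ((i + 1) * (i + 1)))
      obtain ⟨c, rfl⟩ := N.surj x
      refine ⟨c, ?_⟩
      rw [allB_iff]
      intro d hd
      rw [Bool.not_eq_true', ← Bool.not_eq_true, R.eqb_iff]
      show ¬ N.e (pw^[d + 1] c) = N.e c
      rw [epi]
      intro h1
      apply hx
      have h2 : 1 < q ^ (d + 1) := Nat.one_lt_pow (Nat.succ_ne_zero d) hq1
      refine ⟨X ^ q ^ (d + 1) - X, ?_, ?_, ?_⟩
      · exact FiniteField.X_pow_card_sub_X_ne_zero F h2
      · rw [FiniteField.X_pow_card_sub_X_natDegree_eq F h2]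
        exact Nat.pow_le_pow_right (by omega) (by omega)
      · rw [map_sub, map_pow, aeval_X, h1, sub_self])
    refine hlarge ⟨g, hg, fun i hdeg => ?_⟩
    have hxi := hdeg.isIntegral
    have : FiniteDimensional F F⟮N.e (g i)⟯ := adjoin.finiteDimensional hxi
    have hd : Module.finrank F F⟮N.e (g i)⟯ ≤ (i + 1) * (i + 1) := by
      rw [adjoin.finrank hxi]
      exact (degLe_iff hxi).1 hdeg
    have hd0 : 0 < Module.finrank F F⟮N.e (g i)⟯ := Module.finrank_pos
    have : Finite F⟮N.e (g i)⟯ := Module.finite_of_finite F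
    have : Fintype F⟮N.e (g i)⟯ := Fintype.ofFinite _
    have h3 : Fintype.card F⟮N.e (g i)⟯ = q ^ Module.finrank F F⟮N.e (g i)⟯ :=
      Module.card_eq_pow_finrank
    have h4 := FiniteField.pow_card (AdjoinSimple.gen F (N.e (g i)))
    rw [h3] at h4
    have h5 := congrArg (algebraMap F⟮N.e (g i)⟯ K) h4
    rw [map_pow, AdjoinSimple.algebraMap_gen] at h5
    have h6 := hg' i
    rw [allB_iff] at h6
    have h7 := h6 (Module.finrank F F⟮N.e (g i)⟯ - 1) (by omega)
    rw [Bool.not_eq_true', ← Bool.not_eq_true, R.eqb_iff] at h7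
    apply h7
    show N.e (pw^[Module.finrank F F⟮N.e (g i)⟯ - 1 + 1] (g i)) = N.e (g i)
    rw [epi, Nat.sub_add_cancel hd0]
    exact h5
  · -- infinite base field
    obtain ⟨zF, hzF⟩ := M.surj 0
    obtain ⟨oF, hoF⟩ := M.surj 1
    obtain ⟨mo, hmo⟩ := M.surj (-1)
    set RF : RNum F := M.toR zF oF hzF hoF with hRF
    obtain ⟨x, hx, hx'⟩ := exists_seq N M.e M.surj hF hh he hunb
    have hP : Computable fun v : ℕ × ℕ => (R.eqb (R.pv hF v.2.unpair.1 (x v.1)) z) &&
        allB (fun n => check RF mo n v.2.unpair.1 v.2.unpair.2.unpair.1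
          (Mp.ent v.2.unpair.2.unpair.2 n)) (v.1 + 1) := by
      refine cand (R.c_eqb (R.c_pv hh (by fun_prop) (by fun_prop)) (by fun_prop)) ?_
      refine c_allB (f := fun (v : ℕ × ℕ) n => check RF mo n v.2.unpair.1 v.2.unpair.2.unpair.1
          (Mp.ent v.2.unpair.2.unpair.2 n)) ?_ (by fun_prop)
      exact c_check RF mo (by fun_prop) (by fun_prop) (by fun_prop) (by fun_prop)
    have hepv : ∀ m c, N.e (R.pv hF m c) = aeval (N.e c) (pol M.e m) := fun m c =>
      R.e_pv (F := F) (eF := M.e) (h := hF) he m c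
    obtain ⟨g, hg, hg'⟩ := search (P := fun i v => (R.eqb (R.pv hF v.unpair.1 (x i)) z) &&
        allB (fun n => check RF mo n v.unpair.1 v.unpair.2.unpair.1
          (Mp.ent v.unpair.2.unpair.2 n)) (i + 1)) hP (by
      intro i
      set μ := minpoly F (N.e (x i)) with hμ
      have hμ0 : μ ≠ 0 := minpoly.ne_zero (halg _)
      obtain ⟨f, hf⟩ := exists_good hμ0 i
      obtain ⟨cM, hcM⟩ := pol_surj M.surj μ
      obtain ⟨cf, hcf⟩ := pol_surj M.surj f
      have h1 : ∀ n : ℕ, ∃ w, n ≤ i → check RF mo n cM cf w = true := by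
        intro n
        by_cases hn : n ≤ i
        · have h2 : Cert n (pol RF.e cM) (pol RF.e cf) := by
            show Cert n (pol M.e cM) (pol M.e cf)
            rw [hcM, hcf]
            exact cert_of_good (hf n hn)
          obtain ⟨w, hw⟩ := check_of_cert RF mo hmo M.surj h2
          exact ⟨w, fun _ => hw⟩
        · exact ⟨0, fun h => absurd h hn⟩
      choose w hw using h1
      refine ⟨Nat.pair cM (Nat.pair cf (Mp.mk w (i + 1))), ?_⟩
      rw [Bool.and_eq_true, allB_iff, R.eqb_iff]
      simp only [Nat.unpair_pair]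
      refine ⟨?_, ?_⟩
      · show N.e (R.pv hF cM (x i)) = N.e z
        rw [hepv, hcM, hz]
        exact minpoly.aeval F _
      · intro n hn
        rw [Mp.ent_mk hn]
        exact hw n (by omega))
    refine ⟨x, fun i => R.pv hF (g i).unpair.2.unpair.1 (x i), hx,
      R.c_pv hh (by fun_prop) (by fun_prop), ?_⟩
    intro n
    filter_upwards [hx' (n * n), eventually_ge_atTop n] with i hi1 hi2 c hc
    have h1 := hg' i
    rw [Bool.and_eq_true, allB_iff, R.eqb_iff] at h1
    obtain ⟨h2, h3⟩ := h1
    have h4 : aeval (N.e (x i)) (pol M.e (g i).unpair.1) = 0 := by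
      rw [← hepv, ← hz]
      exact h2
    have h5 : Cert n (pol M.e (g i).unpair.1) (pol M.e (g i).unpair.2.unpair.1) :=
      cert_of_check RF mo hmo (h3 n (by omega))
    simp only [hepv] at hc
    exact indep_cert h5 h4 (hsep _ (halg _)) hi1 hc

end Pool.Agent.Q205.CP
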