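import Pool.Agent.Q205.CP.Main
import Pool.Agent.Q205.CP.Pair

set_option autoImplicit false

/-!
# Transcendence degrees of cohesive powers of separable extensions: the proofs
-/

namespace Pool.Agent.Q205.CP

open Polynomial IntermediateField Filter Pool.Agent.Q205.PKL
open Pool.Agent.Helper446.RE hiding allB allB_iff

/-- the exponents with number `t` -/
noncomputable def sx (n t : ℕ) : Fin 2 →₀ ℕ := Finsupp.equivFunOnFinite.symm ![t % n, t / n]

theorem sx_zero (n t : ℕ) : sx n t 0 = t % n := rfl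

theorem sx_one (n t : ℕ) : sx n t 1 = t / n := rfl

theorem sx_inj (n : ℕ) : Function.Injective (sx n) := by
  intro s t h
  have h0 : s % n = t % n := by rw [← sx_zero, ← sx_zero, h]
  have h1 : s / n = t / n := by rw [← sx_one, ← sx_one, h]
  rw [← Nat.div_add_mod s n, ← Nat.div_add_mod t n, h0, h1]

theorem eval_two {R S : Type} [CommRing R] [CommRing S] (φ : R →+* S) (a b : S)
    (p : MvPolynomial (Fin 2) R) {n : ℕ} (hn : ∀ d ∈ p.support, d 0 < n ∧ d 1 < n) :
    p.eval₂ φ ![a, b] =
      ∑ t ∈ Finset.range (n * n), φ (p.coeff (sx n t)) * (a ^ (t % n) * b ^ (t / n)) := by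
  classical
  rw [MvPolynomial.eval₂_eq']
  have h1 : ∑ t ∈ Finset.range (n * n), φ (p.coeff (sx n t)) * (a ^ (t % n) * b ^ (t / n)) =
      ∑ d ∈ (Finset.range (n * n)).image (sx n), φ (p.coeff d) * ∏ i, ![a, b] i ^ d i := by
    rw [Finset.sum_image fun s _ t _ h => sx_inj n h]
    refine Finset.sum_congr rfl fun t _ => ?_
    rw [Fin.prod_univ_two, sx_zero, sx_one]
    rfl
  rw [h1]
  refine Finset.sum_subset ?_ ?_
  · intro d hd
    obtain ⟨h2, h3⟩ := hn d hd
    rw [Finset.mem_image]
    refine ⟨d 0 + n * d 1, ?_, ?_⟩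
    · rw [Finset.mem_range]
      nlinarith
    · ext i
      fin_cases i
      · show (d 0 + n * d 1) % n = d 0
        rw [Nat.add_mul_mod_self_left, Nat.mod_eq_of_lt h2]
      · show (d 0 + n * d 1) / n = d 1
        rw [Nat.add_mul_div_left _ _ (by omega), Nat.div_eq_of_lt h2, zero_add]
  · intro d _ hd
    rw [MvPolynomial.notMem_support_iff.1 hd, map_zero, zero_mul]

/-- **Two algebraically independent elements.** -/
theorem main2 {F K : Type} [Field F] [Field K] [Algebra F K] (P : CompField F) (Q : CompField K)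
    (h : CompEmb P Q) (hsep : ∀ x : K, IsIntegral F x → IsSeparable F x)
    (hunb : ∀ n : ℕ, ∃ x : K, (n : Cardinal) < Module.rank F F⟮x⟯) :
    ∃ x y : ℕ → K, (Computable fun i => Q.code (x i)) ∧ (Computable fun i => Q.code (y i)) ∧
      ∀ C : Set ℕ, C.Infinite → ∃ a b : Power Q C, a.1 = (x : (ae C).Germ K) ∧
        b.1 = (y : (ae C).Germ K) ∧
        ∀ p : MvPolynomial (Fin 2) (Power P C), p.eval₂ (powerMap h C) ![a, b] = 0 → p = 0 := by
  classical
  obtain ⟨N, hN1, hN2⟩ := exists_num Q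
  obtain ⟨M, hM1, hM2⟩ := exists_num P
  obtain ⟨G, hG, hG'⟩ := h
  have hcnm := M.cnm
  have he : ∀ n, N.e (G (M.nm n)) = algebraMap F K (M.e n) := by
    intro n
    rw [← hM1, hG', hN2]
  obtain ⟨x, y, hx, hy, hxy⟩ := exists_pair N M (fun n => G (M.nm n)) (by fun_prop) he hsep
    (unbounded_of_rank hunb)
  have hcN := N.cnm
  have hcx : Computable fun i => Q.code (N.e (x i)) := by
    simp only [hN1]
    fun_prop
  have hcy : Computable fun i => Q.code (N.e (y i)) := by
    simp only [hN1]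
    fun_prop
  refine ⟨fun i => N.e (x i), fun i => N.e (y i), hcx, hcy, fun C hC => ?_⟩
  have hne := ae_neBot hC
  have hpx : IsPC Q C fun i => N.e (x i) :=
    ⟨fun i => Part.some (Q.code (N.e (x i))), hcx,
      Eventually.of_forall fun i => Part.mem_some _⟩
  have hpy : IsPC Q C fun i => N.e (y i) :=
    ⟨fun i => Part.some (Q.code (N.e (y i))), hcy,
      Eventually.of_forall fun i => Part.mem_some _⟩
  refine ⟨⟨_, _, hpx, rfl⟩, ⟨_, _, hpy, rfl⟩, rfl, rfl, fun p hev => ?_⟩
  by_contra hp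
  -- a bound of the exponents
  obtain ⟨n, hn⟩ : ∃ n : ℕ, ∀ d ∈ p.support, d 0 < n ∧ d 1 < n := by
    refine ⟨(p.support.sup fun d => d 0) + (p.support.sup fun d => d 1) + 1, fun d hd => ?_⟩
    have h1 : d 0 ≤ p.support.sup fun d => d 0 := Finset.le_sup (f := fun d => d 0) hd
    have h2 : d 1 ≤ p.support.sup fun d => d 1 := Finset.le_sup (f := fun d => d 1) hd
    omega
  rw [eval_two _ _ _ p hn] at hev
  have hco : ∀ t, ∃ c : ℕ → F, IsPC P C c ∧
      (c : (ae C).Germ F) = (p.coeff (sx n t)).1 := fun t => (p.coeff (sx n t)).2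
  choose c hc hc' using hco
  -- the relation
  have hrel : ∀ᶠ i in ae C, ∑ t ∈ Finset.range (n * n),
      algebraMap F K (c t i) * ((N.e (x i)) ^ (t % n) * (N.e (y i)) ^ (t / n)) = 0 := by
    have h1 := congrArg (Subring.subtype (Power Q C)) hev
    rw [map_sum, map_zero] at h1
    have h2 : ((fun i => ∑ t ∈ Finset.range (n * n),
        algebraMap F K (c t i) * ((N.e (x i)) ^ (t % n) * (N.e (y i)) ^ (t / n)) : ℕ → K) :
        (ae C).Germ K) = ((fun _ => 0 : ℕ → K) : (ae C).Germ K) := by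
      have h3 : (fun i => ∑ t ∈ Finset.range (n * n),
          algebraMap F K (c t i) * ((N.e (x i)) ^ (t % n) * (N.e (y i)) ^ (t / n)) : ℕ → K) =
          ∑ t ∈ Finset.range (n * n), (fun i => algebraMap F K (c t i)) *
            ((fun i => N.e (x i)) ^ (t % n) * (fun i => N.e (y i)) ^ (t / n)) := by
        funext i
        rw [Finset.sum_apply]
        rfl
      rw [h3]
      show Germ.coeRingHom (ae C) _ = _
      rw [map_sum]
      refine Eq.trans (Finset.sum_congr rfl fun t _ => ?_) h1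
      rw [map_mul, map_mul, map_pow, map_pow, map_mul, map_mul, map_pow, map_pow]
      congr 1
      show ((fun i => algebraMap F K (c t i) : ℕ → K) : (ae C).Germ K) =
        Germ.map (algebraMap F K) (p.coeff (sx n t)).1
      rw [← hc' t]
      rfl
    exact Germ.coe_eq.1 h2
  -- a nonzero coefficient
  obtain ⟨d, hd⟩ := MvPolynomial.support_nonempty.2 hp
  obtain ⟨h2, h3⟩ := hn d hd
  have hds : sx n (d 0 + n * d 1) = d := by
    ext i
    fin_cases i
    · show (d 0 + n * d 1) % n = d 0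
      rw [Nat.add_mul_mod_self_left, Nat.mod_eq_of_lt h2]
    · show (d 0 + n * d 1) / n = d 1
      rw [Nat.add_mul_div_left _ _ (by omega), Nat.div_eq_of_lt h2, zero_add]
  have hdl : d 0 + n * d 1 < n * n := by nlinarith
  have hfr : ∃ᶠ i in ae C, c (d 0 + n * d 1) i ≠ 0 := by
    intro hcon
    rw [MvPolynomial.mem_support_iff] at hd
    apply hd
    apply Subtype.ext
    rw [← hds, ← hc' (d 0 + n * d 1)]
    show _ = ((fun _ => (0 : F) : ℕ → F) : (ae C).Germ F)
    rw [Germ.coe_eq]
    filter_upwards [hcon] with i hi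
    simpa using hi
  obtain ⟨i, hi1, hi2, hi3⟩ := (hfr.and_eventually (hrel.and (ae_atTop (hxy n)))).exists
  exact hi1 (hi3 (fun t => c t i) hi2 _ hdl)

/-- Bounded degrees: every element of the power is algebraic. -/
theorem main_bounded {F K : Type} [Field F] [Field K] [Algebra F K] (P : CompField F)
    (Q : CompField K) (h : CompEmb P Q) {n : ℕ} (hb : ∀ x : K, DegLe F n x) {C : Set ℕ}
    (hC : C.Infinite) (a : Power Q C) :
    ∃ p : (Power P C)[X], p ≠ 0 ∧ p.eval₂ (powerMap h C) a = 0 := by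
  classical
  have hne := ae_neBot hC
  obtain ⟨_, f, ⟨φ, hφ, hf⟩, rfl⟩ := a
  obtain ⟨N, hN1, hN2⟩ := exists_num Q
  obtain ⟨M, hM1, hM2⟩ := exists_num P
  have h' := h
  obtain ⟨G, hG, hG'⟩ := h'
  have hcnm := M.cnm
  have he : ∀ n, N.e (G (M.nm n)) = algebraMap F K (M.e n) := by
    intro n
    rw [← hM1, hG', hN2]
  obtain ⟨z, hz⟩ := N.surj 0
  obtain ⟨o, ho⟩ := N.surj 1
  set R : RNum K := N.toR z o hz ho with hR
  have hcg : Computable fun m => G (M.nm m) := by fun_prop
  -- the test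
  set tst : ℕ → ℕ → Bool := fun x w =>
    R.eqb (R.add (R.sum (fun j => R.mul (G (M.nm (Mp.ent w j))) (R.pow x j)) n) (R.pow x n)) z
    with htst
  have tst_iff : ∀ x w, tst x w = true ↔ (∑ j ∈ Finset.range n,
      algebraMap F K (M.e (Mp.ent w j)) * N.e x ^ j) + N.e x ^ n = 0 := by
    intro x w
    rw [htst]
    simp only
    rw [R.eqb_iff, R.eadd, R.e_sum, R.e_pow]
    have h1 : R.e z = 0 := hz
    rw [h1]
    have h2 : ∀ j, R.e (R.mul (G (M.nm (Mp.ent w j))) (R.pow x j)) =
        algebraMap F K (M.e (Mp.ent w j)) * N.e x ^ j := by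
      intro j
      rw [R.emul, R.e_pow]
      show N.e _ * _ = _
      rw [he]
      rfl
    simp only [h2]
    rfl
  have ctst : Computable fun v : ℕ × ℕ => tst v.1 v.2 := by
    refine R.c_eqb (R.c_add ?_ (R.c_pow (by fun_prop) (by fun_prop))) (by fun_prop)
    refine R.c_sum (g := fun (v : ℕ × ℕ) j => R.mul (G (M.nm (Mp.ent v.2 j))) (R.pow v.1 j))
      ?_ (by fun_prop)
    exact R.c_mul (hcg.comp (by fun_prop)) (R.c_pow (by fun_prop) (by fun_prop))
  -- the relation exists
  have hex : ∀ x : ℕ, ∃ w, tst x w = true := by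
    intro x
    obtain ⟨p, hp0, hpd, hpa⟩ := hb (N.e x)
    set r : F[X] := Polynomial.C p.leadingCoeff⁻¹ * p * X ^ (n - p.natDegree) with hr
    have hlc : p.leadingCoeff ≠ 0 := leadingCoeff_ne_zero.2 hp0
    have hmon : (Polynomial.C p.leadingCoeff⁻¹ * p).Monic := monic_C_mul_of_mul_leadingCoeff_eq_one
      (inv_mul_cancel₀ hlc)
    have hrm : r.Monic := hmon.mul (monic_X_pow _)
    have hrd : r.natDegree = n := by
      rw [hr, hmon.natDegree_mul (monic_X_pow _), natDegree_X_pow,
        natDegree_C_mul (inv_ne_zero hlc)]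
      omega
    have hra : aeval (N.e x) r = 0 := by
      rw [hr, map_mul, map_mul, hpa, mul_zero, zero_mul]
    choose g hg using M.surj
    refine ⟨Mp.mk (fun j => g (r.coeff j)) n, ?_⟩
    rw [tst_iff]
    rw [aeval_eq_sum_range, hrd, Finset.sum_range_succ] at hra
    have h1 : r.coeff n = 1 := by
      rw [← hrd]
      exact hrm
    rw [h1, one_smul] at hra
    rw [← hra]
    congr 1
    refine Finset.sum_congr rfl fun j hj => ?_
    rw [Mp.ent_mk (Finset.mem_range.1 hj), hg, Algebra.smul_def]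
  obtain ⟨s, hs, hs'⟩ := search (P := tst) ctst hex
  -- the coefficients
  set cf : ℕ → ℕ → F := fun j i => M.e (Mp.ent (s (Q.code (f i))) j) with hcf
  have hcfp : ∀ j, IsPC P C (cf j) := by
    intro j
    refine ⟨fun i => (φ i).map fun v => M.nm (Mp.ent (s v) j), ?_, ?_⟩
    · have h1 : Computable fun v => M.nm (Mp.ent (s v) j) := by fun_prop
      exact hφ.map (h1.comp Computable.snd).to₂
    · filter_upwards [hf] with i hi
      rw [hcf]
      simp only
      rw [hM1]
      exact Part.mem_map _ hi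
  have hrel : ∀ i, (∑ j ∈ Finset.range n, algebraMap F K (cf j i) * f i ^ j) + f i ^ n = 0 := by
    intro i
    have h1 := (tst_iff _ _).1 (hs' (Q.code (f i)))
    rw [hN2] at h1
    exact h1
  set p : (Power P C)[X] := ∑ j ∈ Finset.range n,
    Polynomial.C (⟨_, cf j, hcfp j, rfl⟩ : Power P C) * X ^ j + X ^ n with hp
  have hnt : Nontrivial (Power P C) := by
    refine ⟨⟨0, 1, ?_⟩⟩
    intro h01
    have h1 : ((fun _ => (0 : F) : ℕ → F) : (ae C).Germ F) = ((fun _ => (1 : F) : ℕ → F)) :=
      congrArg Subtype.val h01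
    rw [Germ.coe_eq] at h1
    obtain ⟨i, hi⟩ := h1.exists
    exact zero_ne_one hi
  refine ⟨p, ?_, ?_⟩
  · intro h0
    have h1 : p.coeff n = 1 := by
      rw [hp, coeff_add, finsetSum_coeff, coeff_X_pow, if_pos rfl]
      rw [Finset.sum_eq_zero, zero_add]
      intro j hj
      rw [coeff_C_mul, coeff_X_pow, if_neg (by have := Finset.mem_range.1 hj; omega), mul_zero]
    rw [h0, coeff_zero] at h1
    exact zero_ne_one h1
  · rw [hp, eval₂_add, eval₂_finsetSum, eval₂_pow, eval₂_X]
    apply Subring.subtype_injective (Power Q C)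
    rw [map_add, map_sum, map_pow, map_zero]
    have h2 : ((fun i => (∑ j ∈ Finset.range n, algebraMap F K (cf j i) * f i ^ j) + f i ^ n :
        ℕ → K) : (ae C).Germ K) = 0 := by
      have h3 : (fun i => (∑ j ∈ Finset.range n, algebraMap F K (cf j i) * f i ^ j) + f i ^ n :
          ℕ → K) = fun _ => 0 := funext hrel
      rw [h3]
      rfl
    rw [← h2]
    have h3 : (fun i => (∑ j ∈ Finset.range n, algebraMap F K (cf j i) * f i ^ j) + f i ^ n :
        ℕ → K) = ∑ j ∈ Finset.range n, (fun i => algebraMap F K (cf j i)) * f ^ j + f ^ n := by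
      funext i
      rw [Pi.add_apply, Finset.sum_apply]
      rfl
    rw [h3]
    show _ = Germ.coeRingHom (ae C) _
    rw [map_add, map_sum, map_pow]
    congr 1
    refine Finset.sum_congr rfl fun j _ => ?_
    rw [eval₂_mul, eval₂_C, eval₂_pow, eval₂_X, map_mul, map_pow, map_mul, map_pow]
    rfl

end Pool.Agent.Q205.CP
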