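import Pool.Agent.Q205.CP.Rn

set_option autoImplicit false

/-!
A numbering of the ring of polynomials in countably many variables.
-/

namespace Pool.Agent.Q205.CP

open Filter Pool.Agent.Q205.PKL
open Pool.Agent.Helper446.RE hiding allB allB_iff

namespace Mp

variable {F : Type} [Field F] (N : RNum F)

/-- the list with number `a` -/
def lst (a : ℕ) : List ℕ := Denumerable.ofNat (List ℕ) a

/-- the entry -/
def ent (a i : ℕ) : ℕ := (lst a).getD i 0

/-- the length -/
def len (a : ℕ) : ℕ := (lst a).length

/-- the number of the list of the values -/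
def mk (g : ℕ → ℕ) (k : ℕ) : ℕ := Encodable.encode ((List.range k).map g)

theorem len_mk (g : ℕ → ℕ) (k : ℕ) : len (mk g k) = k := by
  rw [len, lst, mk, Denumerable.ofNat_encode, List.length_map, List.length_range]

theorem ent_mk {g : ℕ → ℕ} {k i : ℕ} (hi : i < k) : ent (mk g k) i = g i := by
  rw [ent, lst, mk, Denumerable.ofNat_encode,
    List.getD_eq_getElem _ _ (by rw [List.length_map, List.length_range]; exact hi),
    List.getElem_map, List.getElem_range]

theorem ent_mk' {g : ℕ → ℕ} {k i : ℕ} (hi : k ≤ i) : ent (mk g k) i = 0 := by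
  rw [ent, lst, mk, Denumerable.ofNat_encode,
    List.getD_eq_default _ _ (by rw [List.length_map, List.length_range]; exact hi)]

theorem ent_of_le {a i : ℕ} (hi : len a ≤ i) : ent a i = 0 := by
  rw [ent, List.getD_eq_default _ _ hi]

section comp

variable {α : Type*} [Primcodable α]

@[fun_prop] theorem c_ent {f g : α → ℕ} (hf : Computable f) (hg : Computable g) :
    Computable fun a => ent (f a) (g a) := by
  unfold ent lst
  fun_prop

@[fun_prop] theorem c_len {f : α → ℕ} (hf : Computable f) : Computable fun a => len (f a) := by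
  unfold len lst
  fun_prop

theorem c_mk {f : α → ℕ → ℕ} {n : α → ℕ} (hf : Computable fun x : α × ℕ => f x.1 x.2)
    (hn : Computable n) : Computable fun a => mk (f a) (n a) := by
  unfold mk
  exact cencode (c_mapr hf hn)

end comp

/-- the exponents -/
noncomputable def ex (a : ℕ) : ℕ →₀ ℕ := ∑ i ∈ Finset.range (len a), Finsupp.single i (ent a i)

theorem ex_apply (a i : ℕ) : ex a i = ent a i := by
  rw [ex, Finsupp.finsetSum_apply]
  by_cases hi : i < len a
  · rw [Finset.sum_eq_single i]
    · simp
    · intro b _ hb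
      exact Finsupp.single_eq_of_ne (Ne.symm hb)
    · intro h
      exact absurd (Finset.mem_range.2 hi) h
  · rw [ent_of_le (not_lt.1 hi)]
    refine Finset.sum_eq_zero fun b hb => ?_
    refine Finsupp.single_eq_of_ne ?_
    rintro rfl
    exact hi (Finset.mem_range.1 hb)

/-- equality of exponents -/
def meq (a b : ℕ) : Bool := allB (fun i => decide (ent a i = ent b i)) (max (len a) (len b))

theorem meq_iff (a b : ℕ) : meq a b = true ↔ ex a = ex b := by
  rw [meq, allB_iff]
  constructor
  · intro h
    ext i
    rw [ex_apply, ex_apply]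
    by_cases hi : i < max (len a) (len b)
    · simpa using h i hi
    · rw [not_lt, max_le_iff] at hi
      rw [ent_of_le hi.1, ent_of_le hi.2]
  · intro h i _
    rw [decide_eq_true_iff, ← ex_apply, ← ex_apply, h]

@[fun_prop] theorem c_meq {α : Type*} [Primcodable α] {f g : α → ℕ} (hf : Computable f)
    (hg : Computable g) : Computable fun a => meq (f a) (g a) := by
  unfold meq
  refine c_allB (f := fun a i => decide (ent (f a) i = ent (g a) i)) ?_ ?_
  · fun_prop
  · fun_prop

/-- the product of monomials -/
def madd (a b : ℕ) : ℕ := mk (fun i => ent a i + ent b i) (max (len a) (len b))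

theorem ex_madd (a b : ℕ) : ex (madd a b) = ex a + ex b := by
  ext i
  rw [Finsupp.add_apply, ex_apply, ex_apply, ex_apply, madd]
  by_cases hi : i < max (len a) (len b)
  · rw [ent_mk hi]
  · rw [ent_mk' (not_lt.1 hi)]
    rw [not_lt, max_le_iff] at hi
    rw [ent_of_le hi.1, ent_of_le hi.2]

@[fun_prop] theorem c_madd {α : Type*} [Primcodable α] {f g : α → ℕ} (hf : Computable f)
    (hg : Computable g) : Computable fun a => madd (f a) (g a) := by
  unfold madd
  refine c_mk (f := fun a i => ent (f a) i + ent (g a) i) ?_ ?_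
  · fun_prop
  · fun_prop

/-- the value of a term -/
noncomputable def tv (t : ℕ) : MvPolynomial ℕ F :=
  MvPolynomial.monomial (ex t.unpair.2) (N.e t.unpair.1)

/-- the polynomial with a number -/
noncomputable def pe (p : ℕ) : MvPolynomial ℕ F := ∑ i ∈ Finset.range (len p), tv N (ent p i)

/-- the coefficient -/
def co (p a : ℕ) : ℕ :=
  N.sum (fun i => bif meq (ent p i).unpair.2 a then (ent p i).unpair.1 else N.z) (len p)

theorem e_co (p a : ℕ) : N.e (co N p a) = MvPolynomial.coeff (ex a) (pe N p) := by
  rw [co, N.e_sum, pe, MvPolynomial.coeff_sum]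
  refine Finset.sum_congr rfl fun i _ => ?_
  rw [tv, MvPolynomial.coeff_monomial]
  cases h : meq (ent p i).unpair.2 a
  · have : ¬ ex (ent p i).unpair.2 = ex a := fun hc => by
      rw [(meq_iff _ _).2 hc] at h
      exact Bool.noConfusion h
    rw [if_neg this, cond_false, N.ez]
  · rw [if_pos ((meq_iff _ _).1 h), cond_true]

theorem c_co {α : Type*} [Primcodable α] {f g : α → ℕ} (hf : Computable f)
    (hg : Computable g) : Computable fun a => co N (f a) (g a) := by
  unfold co
  refine N.c_sum (g := fun a i => bif meq (ent (f a) i).unpair.2 (g a) then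
    (ent (f a) i).unpair.1 else N.z) ?_ ?_
  · fun_prop
  · fun_prop

/-- sums -/
def padd (p q : ℕ) : ℕ := mk (fun i => bif decide (i < len p) then ent p i else ent q (i - len p))
  (len p + len q)

theorem pe_padd (p q : ℕ) : pe N (padd p q) = pe N p + pe N q := by
  rw [pe, padd, len_mk, Finset.sum_range_add, pe, pe]
  congr 1
  · refine Finset.sum_congr rfl fun i hi => ?_
    rw [Finset.mem_range] at hi
    rw [ent_mk (by omega)]
    simp [hi]
  · refine Finset.sum_congr rfl fun i hi => ?_
    rw [Finset.mem_range] at hi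
    rw [ent_mk (by omega)]
    simp

@[fun_prop] theorem c_padd {α : Type*} [Primcodable α] {f g : α → ℕ} (hf : Computable f)
    (hg : Computable g) : Computable fun a => padd (f a) (g a) := by
  unfold padd
  refine c_mk (f := fun a i => bif decide (i < len (f a)) then ent (f a) i else
    ent (g a) (i - len (f a))) ?_ ?_
  · fun_prop
  · fun_prop

/-- product of terms -/
def tm (t u : ℕ) : ℕ := Nat.pair (N.mul t.unpair.1 u.unpair.1) (madd t.unpair.2 u.unpair.2)

theorem tv_tm (t u : ℕ) : tv N (tm N t u) = tv N t * tv N u := by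
  rw [tv, tm, Nat.unpair_pair, ex_madd, N.emul, tv, tv, MvPolynomial.monomial_mul]

/-- product of a term and a polynomial -/
def tp (t q : ℕ) : ℕ := mk (fun j => tm N t (ent q j)) (len q)

theorem pe_tp (t q : ℕ) : pe N (tp N t q) = tv N t * pe N q := by
  rw [pe, tp, len_mk, pe, Finset.mul_sum]
  refine Finset.sum_congr rfl fun i hi => ?_
  rw [Finset.mem_range] at hi
  rw [ent_mk hi, tv_tm]

/-- partial products -/
def pm (p q : ℕ) : ℕ → ℕ
  | 0 => mk id 0
  | k + 1 => padd (pm p q k) (tp N (ent p k) q)

/-- products -/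
def pmul (p q : ℕ) : ℕ := pm N p q (len p)

theorem pe_pmul (p q : ℕ) : pe N (pmul N p q) = pe N p * pe N q := by
  have h : ∀ k, pe N (pm N p q k) = (∑ i ∈ Finset.range k, tv N (ent p i)) * pe N q := by
    intro k
    induction k with
    | zero => rw [pm, pe, len_mk, Finset.sum_range_zero, Finset.sum_range_zero, zero_mul]
    | succ k ih => rw [pm, pe_padd, ih, pe_tp, Finset.sum_range_succ, add_mul]
  rw [pmul, h, ← pe]

theorem c_tp {α : Type*} [Primcodable α] {f g : α → ℕ} (hf : Computable f)
    (hg : Computable g) : Computable fun a => tp N (f a) (g a) := by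
  unfold tp tm
  refine c_mk (f := fun a j => Nat.pair (N.mul (f a).unpair.1 (ent (g a) j).unpair.1)
    (madd (f a).unpair.2 (ent (g a) j).unpair.2)) ?_ ?_
  · fun_prop
  · fun_prop

theorem c_pmul : Computable fun x : ℕ × ℕ => pmul N x.1 x.2 := by
  have h0 : Computable fun x : (ℕ × ℕ) × (ℕ × ℕ) =>
      padd x.2.2 (tp N (ent x.1.1 x.2.1) x.1.2) :=
    c_padd (by fun_prop) (c_tp N (by fun_prop) (by fun_prop))
  have h1 : Computable fun x : ℕ × ℕ => Nat.rec (motive := fun _ => ℕ) (mk id 0)
      (fun k v => padd v (tp N (ent x.1 k) x.2)) (len x.1) :=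
    Computable.nat_rec (h := fun (x : ℕ × ℕ) (y : ℕ × ℕ) =>
      padd y.2 (tp N (ent x.1 y.1) x.2)) (by fun_prop) (by fun_prop) h0
  refine h1.of_eq fun x => ?_
  unfold pmul
  generalize len x.1 = m
  induction m with
  | zero => rfl
  | succ m ih => simp only [ih, pm]

/-- equality -/
def peq (p q : ℕ) : Bool :=
  allB (fun i => N.eqb (co N p (ent (padd p q) i).unpair.2) (co N q (ent (padd p q) i).unpair.2))
    (len (padd p q))

theorem coeff_pe_eq_zero {p : ℕ} {s : ℕ →₀ ℕ} (h : ∀ i < len p, ex (ent p i).unpair.2 ≠ s) :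
    MvPolynomial.coeff s (pe N p) = 0 := by
  rw [pe, MvPolynomial.coeff_sum]
  refine Finset.sum_eq_zero fun i hi => ?_
  rw [tv, MvPolynomial.coeff_monomial, if_neg (h i (Finset.mem_range.1 hi))]

theorem peq_iff (p q : ℕ) : peq N p q = true ↔ pe N p = pe N q := by
  rw [peq, allB_iff]
  constructor
  · intro h
    ext s
    by_cases hs : ∃ i < len (padd p q), ex (ent (padd p q) i).unpair.2 = s
    · obtain ⟨i, hi, rfl⟩ := hs
      have h1 := h i hi
      rw [N.eqb_iff, e_co, e_co] at h1
      exact h1
    · push Not at hs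
      have h1 : ∀ i < len p, ex (ent p i).unpair.2 ≠ s := by
        intro i hi
        have h2 := hs i (by rw [padd, len_mk]; omega)
        rw [padd, ent_mk (by omega)] at h2
        simpa [hi] using h2
      have h3 : ∀ i < len q, ex (ent q i).unpair.2 ≠ s := by
        intro i hi
        have h2 := hs (len p + i) (by rw [padd, len_mk]; omega)
        rw [padd, ent_mk (by omega)] at h2
        simpa using h2
      rw [coeff_pe_eq_zero N h1, coeff_pe_eq_zero N h3]
  · intro h i _
    rw [N.eqb_iff, e_co, e_co, h]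

theorem c_peq : Computable fun x : ℕ × ℕ => peq N x.1 x.2 := by
  unfold peq
  refine c_allB (f := fun (x : ℕ × ℕ) i =>
    N.eqb (co N x.1 (ent (padd x.1 x.2) i).unpair.2) (co N x.2 (ent (padd x.1 x.2) i).unpair.2))
    ?_ (by fun_prop)
  exact N.c_eqb (c_co N (by fun_prop) (by fun_prop)) (c_co N (by fun_prop) (by fun_prop))

/-- constants -/
def cst (c : ℕ) : ℕ := mk (fun _ => Nat.pair c (mk id 0)) 1

theorem ex_nil : ex (mk id 0) = 0 := by
  rw [ex, len_mk, Finset.sum_range_zero]

theorem pe_cst (c : ℕ) : pe N (cst c) = MvPolynomial.C (N.e c) := by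
  rw [pe, cst, len_mk, Finset.sum_range_one, ent_mk (by omega), tv, Nat.unpair_pair, ex_nil]
  rfl

@[fun_prop] theorem c_cst {α : Type*} [Primcodable α] {f : α → ℕ} (hf : Computable f) :
    Computable fun a => cst (f a) := by
  unfold cst
  refine c_mk (f := fun a _ => Nat.pair (f a) (mk id 0)) ?_ ?_
  · fun_prop
  · fun_prop

/-- variables -/
def var (j : ℕ) : ℕ :=
  mk (fun _ => Nat.pair N.o (mk (fun i => bif decide (i = j) then 1 else 0) (j + 1))) 1

theorem ex_single (j : ℕ) : ex (mk (fun i => bif decide (i = j) then 1 else 0) (j + 1)) =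
    Finsupp.single j 1 := by
  ext i
  rw [ex_apply]
  by_cases hi : i < j + 1
  · rw [ent_mk hi]
    by_cases hij : i = j
    · subst hij
      simp
    · rw [Finsupp.single_eq_of_ne hij]
      simp [hij]
  · rw [ent_mk' (not_lt.1 hi), Finsupp.single_eq_of_ne (by omega)]

theorem pe_var (j : ℕ) : pe N (var N j) = MvPolynomial.X j := by
  rw [pe, var, len_mk, Finset.sum_range_one, ent_mk (by omega), tv, Nat.unpair_pair, ex_single,
    N.eo]
  rfl

@[fun_prop] theorem c_var {α : Type*} [Primcodable α] {f : α → ℕ} (hf : Computable f) :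
    Computable fun a => var N (f a) := by
  unfold var
  have h : Computable fun a => mk (fun i => bif decide (i = f a) then 1 else 0) (f a + 1) := by
    refine c_mk (f := fun a i => bif decide (i = f a) then 1 else 0) ?_ ?_
    · fun_prop
    · fun_prop
  refine c_mk (f := fun a _ => Nat.pair N.o
    (mk (fun i => bif decide (i = f a) then 1 else 0) (f a + 1))) ?_ ?_
  · exact cnatpair (by fun_prop) (h.comp (by fun_prop : Computable fun x : α × ℕ => x.1))
  · fun_prop

/-- the numbering of the ring of polynomials -/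
noncomputable def rnum : RNum (MvPolynomial ℕ F) where
  e := pe N
  add := padd
  cadd := by fun_prop
  eadd := pe_padd N
  mul := pmul N
  cmul := c_pmul N
  emul := pe_pmul N
  eqb := peq N
  ceqb := c_peq N
  eqb_iff := peq_iff N
  z := mk id 0
  ez := by rw [pe, len_mk, Finset.sum_range_zero]
  o := cst N.o
  eo := by rw [pe_cst, N.eo, map_one]

theorem pe_surj (hs : Function.Surjective N.e) : Function.Surjective (pe N) := by
  intro p
  induction p using MvPolynomial.induction_on with
  | C a =>
    obtain ⟨c, rfl⟩ := hs a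
    exact ⟨cst c, pe_cst N c⟩
  | add p q hp hq =>
    obtain ⟨a, rfl⟩ := hp
    obtain ⟨b, rfl⟩ := hq
    exact ⟨padd a b, pe_padd N a b⟩
  | mul_X p i hp =>
    obtain ⟨a, rfl⟩ := hp
    exact ⟨pmul N a (var N i), by rw [pe_pmul, pe_var]⟩

end Mp

end Pool.Agent.Q205.CP
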