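import Pool.Agent.Q205.CP.Srch

set_option autoImplicit false

/-!
Numbered commutative rings: sums, products, powers, values of polynomials.
-/

namespace Pool.Agent.Q205.CP

open Polynomial Filter Pool.Agent.Q205.PKL
open Pool.Agent.Helper446.RE hiding allB allB_iff

/-- a numbering of a commutative ring with computable operations and decidable equality -/
structure RNum (R : Type) [CommRing R] where
  e : ℕ → R
  add : ℕ → ℕ → ℕ
  cadd : Computable fun p : ℕ × ℕ => add p.1 p.2
  eadd : ∀ m n, e (add m n) = e m + e n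
  mul : ℕ → ℕ → ℕ
  cmul : Computable fun p : ℕ × ℕ => mul p.1 p.2
  emul : ∀ m n, e (mul m n) = e m * e n
  eqb : ℕ → ℕ → Bool
  ceqb : Computable fun p : ℕ × ℕ => eqb p.1 p.2
  eqb_iff : ∀ m n, eqb m n = true ↔ e m = e n
  z : ℕ
  ez : e z = 0
  o : ℕ
  eo : e o = 1

section comp

variable {α : Type*} [Primcodable α]

@[fun_prop] theorem c_mod {f g : α → ℕ} (hf : Computable f) (hg : Computable g) :
    Computable fun a => f a % g a := Primrec.nat_mod.to_comp.comp hf hg

@[fun_prop] theorem c_div {f g : α → ℕ} (hf : Computable f) (hg : Computable g) :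
    Computable fun a => f a / g a := Primrec.nat_div.to_comp.comp hf hg

end comp

namespace RNum

variable {R : Type} [CommRing R] (N : RNum R) {α : Type*} [Primcodable α]

@[fun_prop] theorem c_add {f g : α → ℕ} (hf : Computable f) (hg : Computable g) :
    Computable fun a => N.add (f a) (g a) := N.cadd.comp (hf.pair hg)

@[fun_prop] theorem c_mul {f g : α → ℕ} (hf : Computable f) (hg : Computable g) :
    Computable fun a => N.mul (f a) (g a) := N.cmul.comp (hf.pair hg)

@[fun_prop] theorem c_eqb {f g : α → ℕ} (hf : Computable f) (hg : Computable g) :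
    Computable fun a => N.eqb (f a) (g a) := N.ceqb.comp (hf.pair hg)

/-- sums -/
def sum (g : ℕ → ℕ) : ℕ → ℕ
  | 0 => N.z
  | k + 1 => N.add (sum g k) (g k)

/-- products -/
def prod (g : ℕ → ℕ) : ℕ → ℕ
  | 0 => N.o
  | k + 1 => N.mul (prod g k) (g k)

/-- powers -/
def pow (x k : ℕ) : ℕ := N.prod (fun _ => x) k

theorem e_sum (g : ℕ → ℕ) (k : ℕ) : N.e (N.sum g k) = ∑ i ∈ Finset.range k, N.e (g i) := by
  induction k with
  | zero => rw [sum, N.ez, Finset.sum_range_zero]
  | succ k ih => rw [sum, N.eadd, ih, Finset.sum_range_succ]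

theorem e_prod (g : ℕ → ℕ) (k : ℕ) : N.e (N.prod g k) = ∏ i ∈ Finset.range k, N.e (g i) := by
  induction k with
  | zero => rw [prod, N.eo, Finset.prod_range_zero]
  | succ k ih => rw [prod, N.emul, ih, Finset.prod_range_succ]

theorem e_pow (x k : ℕ) : N.e (N.pow x k) = N.e x ^ k := by
  rw [pow, e_prod, Finset.prod_const, Finset.card_range]

theorem c_sum {g : α → ℕ → ℕ} {k : α → ℕ} (hg : Computable fun x : α × ℕ => g x.1 x.2)
    (hk : Computable k) : Computable fun a => N.sum (g a) (k a) := by
  have h1 : Computable fun a => Nat.rec (motive := fun _ => ℕ) N.z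
      (fun i v => N.add v (g a i)) (k a) := by
    refine Computable.nat_rec (h := fun a (y : ℕ × ℕ) => N.add y.2 (g a y.1)) hk
      (Computable.const _) ?_
    show Computable fun x : α × (ℕ × ℕ) => N.add x.2.2 (g x.1 x.2.1)
    have h2 : Computable fun x : α × (ℕ × ℕ) => g x.1 x.2.1 :=
      hg.comp (g := fun x : α × (ℕ × ℕ) => (x.1, x.2.1)) (by fun_prop)
    fun_prop
  refine h1.of_eq fun a => ?_
  generalize k a = m
  induction m with
  | zero => rfl
  | succ m ih => simp only [ih, sum]

theorem c_prod {g : α → ℕ → ℕ} {k : α → ℕ} (hg : Computable fun x : α × ℕ => g x.1 x.2)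
    (hk : Computable k) : Computable fun a => N.prod (g a) (k a) := by
  have h1 : Computable fun a => Nat.rec (motive := fun _ => ℕ) N.o
      (fun i v => N.mul v (g a i)) (k a) := by
    refine Computable.nat_rec (h := fun a (y : ℕ × ℕ) => N.mul y.2 (g a y.1)) hk
      (Computable.const _) ?_
    show Computable fun x : α × (ℕ × ℕ) => N.mul x.2.2 (g x.1 x.2.1)
    have h2 : Computable fun x : α × (ℕ × ℕ) => g x.1 x.2.1 :=
      hg.comp (g := fun x : α × (ℕ × ℕ) => (x.1, x.2.1)) (by fun_prop)
    fun_prop
  refine h1.of_eq fun a => ?_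
  generalize k a = m
  induction m with
  | zero => rfl
  | succ m ih => simp only [ih, prod]

@[fun_prop] theorem c_pow {f g : α → ℕ} (hf : Computable f) (hg : Computable g) :
    Computable fun a => N.pow (f a) (g a) := by
  refine N.c_prod (g := fun a _ => f a) ?_ hg
  fun_prop

/-- the value at `x` of the polynomial whose coefficients are the images under `h` of the list
with the number `m` -/
def pv (h : ℕ → ℕ) (m x : ℕ) : ℕ :=
  N.sum (fun i => N.mul (h ((Denumerable.ofNat (List ℕ) m).getD i 0)) (N.pow x i))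
    (Denumerable.ofNat (List ℕ) m).length

theorem c_pv {h : ℕ → ℕ} (hh : Computable h) {f g : α → ℕ} (hf : Computable f)
    (hg : Computable g) : Computable fun a => N.pv h (f a) (g a) := by
  unfold pv
  refine N.c_sum (g := fun a i => N.mul (h ((Denumerable.ofNat (List ℕ) (f a)).getD i 0))
    (N.pow (g a) i)) ?_ ?_
  · fun_prop
  · fun_prop

end RNum

section pol

variable {F : Type} [Field F]

/-- the polynomial with the list `m` of coefficients -/
noncomputable def pol (eF : ℕ → F) (m : ℕ) : F[X] :=
  ∑ i ∈ Finset.range (Denumerable.ofNat (List ℕ) m).length,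
    C (eF ((Denumerable.ofNat (List ℕ) m).getD i 0)) * X ^ i

theorem pol_surj {eF : ℕ → F} (hs : Function.Surjective eF) : Function.Surjective (pol eF) := by
  intro p
  choose g hg using hs
  refine ⟨Encodable.encode ((List.range (p.natDegree + 1)).map fun i => g (p.coeff i)), ?_⟩
  rw [pol, Denumerable.ofNat_encode, List.length_map, List.length_range]
  conv_rhs => rw [p.as_sum_range_C_mul_X_pow]
  refine Finset.sum_congr rfl fun i hi => ?_
  rw [Finset.mem_range] at hi
  rw [List.getD_eq_getElem _ _ (by rw [List.length_map, List.length_range]; exact hi),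
    List.getElem_map, List.getElem_range, hg]

theorem RNum.e_pv {R : Type} [CommRing R] [Algebra F R] (N : RNum R) {eF : ℕ → F} {h : ℕ → ℕ}
    (he : ∀ n, N.e (h n) = algebraMap F R (eF n)) (m x : ℕ) :
    N.e (N.pv h m x) = aeval (N.e x) (pol eF m) := by
  rw [RNum.pv, RNum.e_sum, pol, map_sum]
  refine Finset.sum_congr rfl fun i _ => ?_
  rw [N.emul, he, N.e_pow, map_mul, map_pow, aeval_X, aeval_C]

end pol

end Pool.Agent.Q205.CP
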