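import Pool.Agent.Q205.PKL.Tools

set_option autoImplicit false

/-!
Unbounded search and iteration of computable functions.
-/

namespace Pool.Agent.Q205.CP

open Filter Pool.Agent.Q205.PKL Pool.Agent.Helper446.RE

/-- unbounded search -/
theorem search {α : Type*} [Primcodable α] {P : α → ℕ → Bool}
    (hP : Computable fun x : α × ℕ => P x.1 x.2) (h : ∀ a, ∃ n, P a n = true) :
    ∃ g : α → ℕ, Computable g ∧ ∀ a, P a (g a) = true := by
  classical
  refine ⟨fun a => Nat.find (h a), ?_, fun a => Nat.find_spec (h a)⟩
  have h1 : Partrec fun a => Nat.rfind (fun n => (Part.some (P a n) : Part Bool)) :=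
    Partrec.rfind (Computable₂.partrec₂ (Computable₂.mk hP))
  refine h1.of_eq_tot fun a => ?_
  refine Nat.mem_rfind.2 ⟨?_, fun {m} hm => ?_⟩
  · rw [Part.mem_some_iff]
    exact (Nat.find_spec (h a)).symm
  · rw [Part.mem_some_iff]
    have h2 := Nat.find_min (h a) hm
    exact (Bool.eq_false_of_not_eq_true h2).symm

/-- iteration -/
@[fun_prop] theorem c_iter {α : Type*} [Primcodable α] {f : ℕ → ℕ} (hf : Computable f)
    {b y : α → ℕ} (hb : Computable b) (hy : Computable y) :
    Computable fun a => f^[b a] (y a) := by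
  have h1 : Computable fun a => Nat.rec (motive := fun _ => ℕ) (y a)
      (fun _ v => f v) (b a) :=
    Computable.nat_rec (h := fun _ (v : ℕ × ℕ) => f v.2) hb hy
      (show Computable fun x : α × (ℕ × ℕ) => f x.2.2 by fun_prop)
  refine h1.of_eq fun a => ?_
  generalize b a = k
  induction k with
  | zero => rfl
  | succ k ih => rw [Function.iterate_succ_apply', ← ih]

end Pool.Agent.Q205.CP
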